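import Pool.Agent.V8H73.ND.Taylor

/-! Ordinary double points over a Dedekind ring: the local module. -/

set_option autoImplicit false
set_option linter.unusedSectionVars false
set_option linter.unusedVariables false

open scoped Pointwise

namespace Pool.Agent.V8H73.ND

open MvPolynomial Pool.Agent.H918R2.Quad Pool.Agent.TH214.RM Pool.Agent.H945R2.E
  Pool.Agent.W418

/-- The equation `G` is regular over `𝔭`, except possibly at the point `(1 : 0 : ... : 0)` of the
fibre over `𝔭`. -/
def CritOff {O : Type} [CommRing O] (𝔭 : Ideal O) {n : ℕ} (G : MvPolynomial (Fin (n + 1)) O) :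
    Prop :=
  ∀ (s : Fin (n + 1)) (Q : Ideal (MvPolynomial {j : Fin (n + 1) // j ≠ s} O)), Q.IsPrime →
    (∀ r : O, C r ∈ Q ↔ r ∈ 𝔭) → deh s G ∈ Q →
    (∃ j, pderiv j (deh s G) ∉ Q) ∨ (∀ h, h ∉ Q → h * deh s G ∉ Q ^ 2) ∨
      (s = 0 ∧ ∀ j, X j ∈ Q)

/-- The fibre over `𝔭` has an ordinary double point (with invertible Hessian matrix) at the point
`(1 : 0 : ... : 0)`, and `G` is regular over `𝔭` at all other points. -/
def NodeO {O : Type} [CommRing O] (𝔭 : Ideal O) {n : ℕ} (G : MvPolynomial (Fin (n + 1)) O) :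
    Prop :=
  coeff 0 (deh0 G) ∈ 𝔭 ∧ (∀ s, coeff 0 (pderiv s (deh0 G)) ∈ 𝔭) ∧
    (Matrix.of fun s r => coeff 0 (pderiv s (pderiv r (deh0 G)))).det ∉ 𝔭 ∧ CritOff 𝔭 G

theorem regOff_loc {O R : Type} [CommRing O] [CommRing R] [Algebra O R]
    (𝔭 : Ideal O) [𝔭.IsPrime] [IsLocalization.AtPrime R 𝔭]
    (hinj : Function.Injective (algebraMap O R)) {n : ℕ} (G : MvPolynomial (Fin (n + 1)) O)
    (h : CritOff 𝔭 G) : RegOff (map (algebraMap O R) G) := by
  intro s Q hQ hG hCQ
  set φ : MvPolynomial {j : Fin (n + 1) // j ≠ s} O →+* MvPolynomial {j : Fin (n + 1) // j ≠ s} R :=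
    map (algebraMap O R) with hφ
  have hφi : Function.Injective φ := map_injective _ hinj
  have hp : (Q.comap φ).IsPrime := Ideal.comap_isPrime _ _
  have hC : ∀ r : O, C r ∈ Q.comap φ ↔ r ∈ 𝔭 := by
    intro r
    rw [Ideal.mem_comap, hφ, map_C, hCQ, IsLocalization.AtPrime.isUnit_to_map_iff R 𝔭 r]
    simp
  have hs : ∀ r : O, r ∈ 𝔭.primeCompl → (C (algebraMap O R r) : MvPolynomial _ R) ∉ Q := by
    intro r hr h1
    rw [hCQ] at h1
    exact h1 (IsLocalization.map_units R (⟨r, hr⟩ : 𝔭.primeCompl))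
  have hdeh : φ (deh s G) = deh s (map (algebraMap O R) G) := map_deh _ _ _
  have hE : deh s G ∈ Q.comap φ := by
    rw [Ideal.mem_comap, hdeh]
    exact hG
  rcases h s (Q.comap φ) hp hC hE with ⟨j, hj⟩ | h1 | ⟨h1, h2⟩
  · left
    refine ⟨j, fun h2 => hj ?_⟩
    rw [Ideal.mem_comap, hφ, ← pderiv_map, ← hφ, hdeh]
    exact h2
  · right
    left
    intro f hf hfQ
    obtain ⟨a, ha, y, hy⟩ := clear_poly 𝔭.primeCompl f
    obtain ⟨b, hb, z, hzQ, hz⟩ := clear_sq 𝔭.primeCompl Q _ hfQ
    have hyQ : y ∉ Q.comap φ := by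
      rw [Ideal.mem_comap, hφ, hy]
      intro h2
      exact (hQ.mem_or_mem h2).elim (hs a ha) hf
    have hbQ : C b ∉ Q.comap φ := by
      rw [hC]
      exact hb
    have h3 : C b * y ∉ Q.comap φ := fun h4 => (hp.mem_or_mem h4).elim hbQ hyQ
    apply h1 _ h3
    have h5 : C b * y * deh s G = C a * z := by
      apply hφi
      have hy' : φ y = C (algebraMap O R a) * f := hy
      have hz' : φ z = C (algebraMap O R b) * (f * deh s (map (algebraMap O R) G)) := hz
      have hCa : φ (C a) = C (algebraMap O R a) := map_C _ _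
      have hCb : φ (C b) = C (algebraMap O R b) := map_C _ _
      rw [map_mul, map_mul, map_mul, hdeh, hy', hz', hCa, hCb]
      ring
    rw [h5]
    exact Ideal.mul_mem_left _ _ hzQ
  · right
    right
    refine ⟨h1, fun j => ?_⟩
    have := h2 j
    rwa [Ideal.mem_comap, hφ, map_X] at this

theorem deh0_map {O R : Type} [CommRing O] [CommRing R] (φ : O →+* R) {n : ℕ}
    (G : MvPolynomial (Fin (n + 1)) O) : deh0 (map φ G) = map φ (deh0 G) := by
  unfold deh0
  induction G using MvPolynomial.induction_on with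
  | C a => simp
  | add p q hp hq =>
    simp only [map_add] at hp hq ⊢
    rw [hp, hq]
  | mul_X p i hp =>
    simp only [map_mul, aeval_X, map_X] at hp ⊢
    rw [hp]
    congr 1
    refine Fin.cases ?_ (fun j => ?_) i
    · simp
    · simp

section

variable {O K F : Type} [CommRing O] [IsDedekindDomain O] [Field K] [Algebra O K]
  [IsFractionRing O K] [Field F] [Algebra K F] [Algebra O F] [IsScalarTower O K F]

include K in
/-- The local module at a prime with an ordinary double point. -/
theorem locMod_of_node (𝔭 : Ideal O) [𝔭.IsPrime] (h0 : 𝔭 ≠ ⊥) {n : ℕ}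
    (G : MvPolynomial (Fin (n + 2)) O)
    (hG0 : G ≠ 0) (d : ℕ) (hGd : G.IsHomogeneous d) (hnode : NodeO 𝔭 G)
    (c₁ : O) (hc₁ : c₁ ≠ 0) (e : ℕ)
    (hsm : C c₁ * X 0 ^ e ∈ Ideal.span (Set.range fun j => pderiv j G))
    (x : Fin (n + 2) → F) (hx0 : x 0 = 1)
    (hgen : IntermediateField.adjoin K (Set.range x) = ⊤)
    (b : Fin n → F) (htb : IsTranscendenceBasis K b)
    (x' : Fin (n + 2) → F) (u u' : Fin (n + 2) → Fin (n + 2) → K)
    (hu : ∀ i, x i = ∑ j, algebraMap K F (u i j) * x' j)
    (hu' : ∀ i, x' i = ∑ j, algebraMap K F (u' i j) * x j) (hrel : aeval x' G = 0) :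
    LocMod 𝔭 x := by
  classical
  let R := Localization.subalgebra.ofField K 𝔭.primeCompl 𝔭.primeCompl_le_nonZeroDivisors
  have : IsLocalization.AtPrime R 𝔭 := Localization.subalgebra.isLocalization_ofField K _ _
  have : IsFractionRing R K := Localization.subalgebra.isFractionRing_ofField K _ _
  have hdvr : IsDiscreteValuationRing R :=
    IsLocalization.AtPrime.isDiscreteValuationRing_of_dedekind_domain O h0 R
  have : IsScalarTower O R F := IsScalarTower.of_algebraMap_eq fun r => by
    rw [IsScalarTower.algebraMap_apply O K F]; rfl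
  have : IsScalarTower R K F := IsScalarTower.of_algebraMap_eq fun r => rfl
  have hinjOR : Function.Injective (algebraMap O R) :=
    IsLocalization.injective R 𝔭.primeCompl_le_nonZeroDivisors
  have hinjRF : Function.Injective (algebraMap R F) := by
    rw [IsScalarTower.algebraMap_eq R K F]
    exact (algebraMap K F).injective.comp (IsFractionRing.injective R K)
  obtain ⟨π, hπ⟩ : ∃ π : O, Irreducible (algebraMap O R π) := by
    obtain ⟨ϖ, hϖ⟩ := IsDiscreteValuationRing.exists_irreducible R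
    obtain ⟨o, s, rfl⟩ := IsLocalization.exists_mk'_eq 𝔭.primeCompl ϖ
    refine ⟨o, ?_⟩
    have h1 := IsLocalization.mk'_spec' R o s
    rw [← h1]
    exact (irreducible_isUnit_mul (IsLocalization.map_units R s)).2 hϖ
  set ϖ : R := algebraMap O R π with hϖ
  have hdvd : ∀ o : O, o ∈ 𝔭 → ϖ ∣ algebraMap O R o := by
    intro o ho
    have h1 : algebraMap O R o ∈ IsLocalRing.maximalIdeal R := by
      rw [← IsLocalization.AtPrime.map_eq_maximalIdeal 𝔭 R]
      exact Ideal.mem_map_of_mem _ ho
    rwa [hπ.maximalIdeal_eq, Ideal.mem_span_singleton] at h1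
  obtain ⟨hn1, hn2, hn3, hn4⟩ := hnode
  set GR := map (algebraMap O R) G with hGR
  have hGR0 : GR ≠ 0 := fun h =>
    hG0 (map_injective _ hinjOR (by rw [← hGR, h, map_zero]))
  have hGRd : GR.IsHomogeneous d := hGd.map _
  have hdet : IsUnit (Matrix.of fun s r => coeff 0 (pderiv s (pderiv r (deh0 GR)))).det := by
    have h1 : (Matrix.of fun s r => coeff 0 (pderiv s (pderiv r (deh0 GR)))) =
        (algebraMap O R).mapMatrix (Matrix.of fun s r => coeff 0 (pderiv s (pderiv r (deh0 G)))) := by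
      ext s r
      rw [Matrix.of_apply, RingHom.mapMatrix_apply, Matrix.map_apply, Matrix.of_apply, hGR,
        deh0_map, pderiv_map, pderiv_map, coeff_map]
    rw [h1, ← RingHom.map_det, IsLocalization.AtPrime.isUnit_to_map_iff R 𝔭]
    exact hn3
  obtain ⟨c, b', k, a, H, hc, hb', hk, hdet', hnf⟩ := exists_normal ϖ hπ GR d hGRd (by
      rw [hGR, deh0_map, coeff_map]
      exact hdvd _ hn1) (by
      intro s
      rw [hGR, deh0_map, pderiv_map, coeff_map]
      exact hdvd _ (hn2 s)) hdet (algebraMap O R c₁) (by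
      rw [Ne, map_eq_zero_iff _ hinjOR]
      exact hc₁) e (by
      have h1 := Ideal.mem_map_of_mem (map (algebraMap O R) :
        MvPolynomial (Fin (n + 2)) O →+* MvPolynomial (Fin (n + 2)) R) hsm
      rw [map_mul, map_C, map_pow, map_X, Ideal.map_span, ← Set.range_comp] at h1
      have h2 : (fun j => pderiv j GR) = (map (algebraMap O R)) ∘ (fun j => pderiv j G) := by
        funext j
        rw [Function.comp_apply, ← pderiv_map]
      rw [h2]
      exact h1)
  let x'' : Fin (n + 2) → F := Fin.cases (x' 0) (fun j => x' j.succ - algebraMap R F (c j) * x' 0)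
  have hx''0 : x'' 0 = x' 0 := rfl
  have hx''s : ∀ j : Fin (n + 1), x'' j.succ = x' j.succ - algebraMap R F (c j) * x' 0 :=
    fun j => rfl
  have hx' : ∀ j : Fin (n + 1), x' j.succ = x'' j.succ + algebraMap R F (c j) * x'' 0 := by
    intro j
    rw [hx''s, hx''0]
    ring
  have hspan1 : ∀ i, x'' i ∈ Submodule.span K (Set.range x') := by
    intro i
    refine Fin.cases ?_ (fun j => ?_) i
    · exact Submodule.subset_span ⟨0, rfl⟩
    · rw [hx''s, IsScalarTower.algebraMap_apply R K F, ← Algebra.smul_def]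
      exact Submodule.sub_mem _ (Submodule.subset_span ⟨_, rfl⟩)
        (Submodule.smul_mem _ _ (Submodule.subset_span ⟨0, rfl⟩))
  have hspan2 : ∀ i, x' i ∈ Submodule.span K (Set.range x'') := by
    intro i
    refine Fin.cases ?_ (fun j => ?_) i
    · rw [← hx''0]
      exact Submodule.subset_span ⟨0, rfl⟩
    · rw [hx', IsScalarTower.algebraMap_apply R K F, ← Algebra.smul_def]
      exact Submodule.add_mem _ (Submodule.subset_span ⟨_, rfl⟩)
        (Submodule.smul_mem _ _ (Submodule.subset_span ⟨0, rfl⟩))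
  have hxx' : ∀ i, x i ∈ Submodule.span K (Set.range x') := by
    intro i
    rw [hu]
    refine Submodule.sum_mem _ fun j _ => ?_
    rw [← Algebra.smul_def]
    exact Submodule.smul_mem _ _ (Submodule.subset_span ⟨j, rfl⟩)
  have hx'x : ∀ i, x' i ∈ Submodule.span K (Set.range x) := by
    intro i
    rw [hu']
    refine Submodule.sum_mem _ fun j _ => ?_
    rw [← Algebra.smul_def]
    exact Submodule.smul_mem _ _ (Submodule.subset_span ⟨j, rfl⟩)
  have htrans : ∀ (v w : Fin (n + 2) → F), (∀ i, v i ∈ Submodule.span K (Set.range w)) →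
      Submodule.span K (Set.range v) ≤ Submodule.span K (Set.range w) := by
    intro v w h
    rw [Submodule.span_le]
    rintro _ ⟨i, rfl⟩
    exact h i
  have hxx'' : ∀ i, x i ∈ Submodule.span K (Set.range x'') := fun i =>
    htrans _ _ hspan2 (hxx' i)
  have hx''x : ∀ i, x'' i ∈ Submodule.span K (Set.range x) := fun i =>
    htrans _ _ hx'x (hspan1 i)
  have hu'' : ∀ i, ∃ r : Fin (n + 2) → K, x i = ∑ j, algebraMap K F (r j) * x'' j := by
    intro i
    obtain ⟨r, hr⟩ := (Submodule.mem_span_range_iff_exists_fun K).1 (hxx'' i)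
    refine ⟨r, ?_⟩
    rw [← hr]
    exact Finset.sum_congr rfl fun j _ => Algebra.smul_def _ _
  choose w hw using hu''
  have hrel1 : aeval x' GR = 0 := by
    rw [hGR, aeval_map_algebraMap, hrel]
  have hrel2 : aeval x'' (tr c GR) = 0 := by
    have h1 : aeval x'' (tr c GR) = aeval x' GR := by
      unfold tr
      rw [← AlgHom.comp_apply]
      congr 1
      apply MvPolynomial.algHom_ext
      intro i
      rw [AlgHom.comp_apply, aeval_X, aeval_X]
      refine Fin.cases ?_ (fun j => ?_) i
      · simp only [Fin.cases_zero, aeval_X]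
        rw [hx''0]
      · simp only [Fin.cases_succ, map_add, map_mul, aeval_X, aeval_C]
        rw [hx' j]
    rw [h1, hrel1]
  refine locMod_lin (K := K) 𝔭 h0 x x'' hx''x hxx'' ?_
  exact locMod_node (K := K) (R := R) 𝔭 GR hGR0 d hGRd (regOff_loc 𝔭 hinjOR G hn4) (tr c GR)
    (tr_homog c GR d hGRd) π hπ b' hb' k hk a H hdet' hnf x hx0 hgen b htb x'' w hw x' c hc
    hx''0.symm hx' hrel1 hrel2

end

end Pool.Agent.V8H73.ND
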