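import Pool.Agent.V8H73.ND.Node

/-! Regular models of smooth hypersurfaces which over every prime have an equation which is regular
or has one ordinary double point. -/

set_option autoImplicit false
set_option linter.unusedSectionVars false
set_option linter.unusedVariables false

open AlgebraicGeometry CategoryTheory CategoryTheory.Limits NumberField
open scoped Pointwise

namespace Pool.Agent.V8H73.ND

open MvPolynomial Pool.Agent.H918R2.Quad Pool.Agent.TH214.RM Pool.Agent.H945R2.E
  Pool.Agent.W418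

/-- Over each nonzero prime the hypersurface has, in suitable coordinates, an integral equation
which is regular over the prime, or regular over the prime except for one ordinary double point. -/
def LocNode (O : Type) {K : Type} [CommRing O] [Field K] [Algebra O K] {n : ℕ}
    (G : MvPolynomial (Fin (n + 2)) K) : Prop :=
  ∀ 𝔭 : Ideal O, 𝔭.IsPrime → 𝔭 ≠ ⊥ →
    ∃ (H : MvPolynomial (Fin (n + 2)) O) (l : K) (T T' : Matrix (Fin (n + 2)) (Fin (n + 2)) K),
      l ≠ 0 ∧ T * T' = 1 ∧
      map (algebraMap O K) H = C l * aeval (fun i => ∑ j, C (T i j) * X j) G ∧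
      (Crit 𝔭 H ∨ NodeO 𝔭 H)

section

variable {K : Type} [Field K]

/-- The chain rule for linear substitutions. -/
theorem pderiv_lin {n : ℕ} (T : Matrix (Fin n) (Fin n) K) (G : MvPolynomial (Fin n) K)
    (j : Fin n) :
    pderiv j (aeval (fun i => ∑ j, C (T i j) * (X j : MvPolynomial (Fin n) K)) G) =
      ∑ i, C (T i j) * aeval (fun i => ∑ j, C (T i j) * (X j : MvPolynomial (Fin n) K))
        (pderiv i G) := by
  classical
  induction G using MvPolynomial.induction_on with
  | C a => simp
  | add p q hp hq =>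
    simp only [map_add, hp, hq, mul_add, Finset.sum_add_distrib]
  | mul_X p i hp =>
    have h1 : pderiv j (∑ j, C (T i j) * (X j : MvPolynomial (Fin n) K)) = C (T i j) := by
      rw [map_sum]
      have h2 : ∀ k, pderiv j (C (T i k) * (X k : MvPolynomial (Fin n) K)) =
          if k = j then C (T i k) else 0 := by
        intro k
        rw [pderiv_C_mul, pderiv_X]
        simp only [Pi.single_apply]
        split_ifs <;> simp
      simp only [h2]
      rw [Finset.sum_ite_eq' Finset.univ j, if_pos (Finset.mem_univ _)]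
    rw [map_mul, aeval_X, pderiv_mul, hp, h1]
    have h3 : ∀ k, aeval (fun i => ∑ j, C (T i j) * (X j : MvPolynomial (Fin n) K))
        (pderiv k (p * X i)) = aeval (fun i => ∑ j, C (T i j) * (X j : MvPolynomial (Fin n) K))
        (pderiv k p) * (∑ j, C (T i j) * X j) + if i = k then
        aeval (fun i => ∑ j, C (T i j) * (X j : MvPolynomial (Fin n) K)) p else 0 := by
      intro k
      rw [pderiv_mul, pderiv_X, map_add, map_mul, aeval_X]
      congr 1
      simp only [Pi.single_apply]
      split_ifs <;> simp_all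
    simp only [h3, mul_add, Finset.sum_add_distrib, mul_ite, mul_zero]
    congr 1
    · rw [Finset.sum_mul]
      exact Finset.sum_congr rfl fun k _ => by ring
    · rw [Finset.sum_ite_eq Finset.univ i, if_pos (Finset.mem_univ _), mul_comm]

theorem smooth_lin {n : ℕ} (T T' : Matrix (Fin n) (Fin n) K) (hT : T * T' = 1)
    (l : K) (hl : l ≠ 0) (G : MvPolynomial (Fin n) K) (hG : Smooth G) :
    Smooth (C l * aeval (fun i => ∑ j, C (T i j) * (X j : MvPolynomial (Fin n) K)) G) := by
  classical
  have hT' : T' * T = 1 := mul_eq_one_comm.1 hT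
  set φ : MvPolynomial (Fin n) K →ₐ[K] MvPolynomial (Fin n) K :=
    aeval (fun i => ∑ j, C (T i j) * (X j : MvPolynomial (Fin n) K)) with hφ
  set I := Ideal.span (Set.range fun j => pderiv j (C l * φ G)) with hI
  have h1 : ∀ i, φ (pderiv i G) ∈ I := by
    intro i
    have h2 : φ (pderiv i G) = ∑ j, C (T' j i * l⁻¹) * pderiv j (C l * φ G) := by
      have h3 : ∀ j, C (T' j i * l⁻¹) * pderiv j (C l * φ G) =
          ∑ k, C (T k j * T' j i) * φ (pderiv k G) := by
        intro j
        rw [pderiv_C_mul, pderiv_lin, ← mul_assoc, ← C_mul, Finset.mul_sum]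
        refine Finset.sum_congr rfl fun k _ => ?_
        rw [← mul_assoc, ← C_mul]
        congr 2
        field_simp
      simp only [h3]
      rw [Finset.sum_comm]
      have h4 : ∀ k, ∑ j, C (T k j * T' j i) * φ (pderiv k G) =
          C ((T * T') k i) * φ (pderiv k G) := by
        intro k
        rw [Matrix.mul_apply, map_sum, Finset.sum_mul]
      simp only [h4, hT, Matrix.one_apply]
      simp
    rw [h2]
    exact I.sum_mem fun j _ => I.mul_mem_left _ (Ideal.subset_span ⟨j, rfl⟩)
  have h5 : Ideal.span (Set.range fun j => pderiv j G) ≤ I.comap φ := by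
    rw [Ideal.span_le]
    rintro _ ⟨j, rfl⟩
    exact h1 j
  have h6 : ∀ i, φ (X i) ∈ I.radical := by
    intro i
    obtain ⟨k, hk⟩ := hG i
    have h7 := h5 hk
    rw [Ideal.mem_comap, map_pow] at h7
    exact ⟨k, h7⟩
  intro j
  have h8 : (X j : MvPolynomial (Fin n) K) = ∑ i, C (T' j i) * φ (X i) := by
    have h9 : ∑ i, C (T' j i) * φ (X i) =
        ∑ k, C ((T' * T) j k) * (X k : MvPolynomial (Fin n) K) := by
      simp only [hφ, aeval_X, Finset.mul_sum]
      rw [Finset.sum_comm]
      refine Finset.sum_congr rfl fun k _ => ?_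
      rw [Matrix.mul_apply, map_sum, Finset.sum_mul]
      refine Finset.sum_congr rfl fun i _ => ?_
      rw [C_mul]
      ring
    rw [h9, hT']
    simp [Matrix.one_apply]
  change (X j : MvPolynomial (Fin n) K) ∈ I.radical
  rw [h8]
  exact I.radical.sum_mem fun i _ => I.radical.mul_mem_left _ (h6 i)

end

section

variable {O K F : Type} [CommRing O] [IsDedekindDomain O] [Field K] [Algebra O K]
  [IsFractionRing O K] [Field F] [Algebra K F] [Algebra O F] [IsScalarTower O K F]

include K in
theorem clear_smooth {n : ℕ} (G₀ : MvPolynomial (Fin n) O) (hsm : Smooth (map (algebraMap O K) G₀))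
    (i : Fin n) : ∃ c : O, c ≠ 0 ∧ ∃ k : ℕ,
      C c * X i ^ k ∈ Ideal.span (Set.range fun j => pderiv j G₀) := by
  have hOK : Function.Injective (algebraMap O K) := IsFractionRing.injective O K
  obtain ⟨k, hk⟩ := hsm i
  have hspan : Ideal.span (Set.range fun j => pderiv j (map (algebraMap O K) G₀)) =
      Ideal.span (map (algebraMap O K) '' (Set.range fun j => pderiv j G₀)) := by
    congr 1
    rw [← Set.range_comp]
    congr 1
    funext j
    rw [Function.comp_apply, ← pderiv_map]
  rw [hspan] at hk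
  obtain ⟨c, hc, y, hy, hyc⟩ := clear_span (R := K) (nonZeroDivisors O) _ _ hk
  refine ⟨c, nonZeroDivisors.ne_zero hc, k, ?_⟩
  have h1 : y = C c * X i ^ k := by
    apply map_injective _ hOK
    rw [hyc, map_mul, map_C, map_pow, map_X]
  rwa [← h1]

include K in
theorem goodModule_of_locNode {n : ℕ} (G : MvPolynomial (Fin (n + 2)) K) (hG0 : G ≠ 0)
    (d : ℕ) (hGd : G.IsHomogeneous d) (hsm : Smooth G) (hloc : LocNode O G)
    (x : Fin (n + 2) → F) (hx0 : x 0 = 1) (hrel : aeval x G = 0)
    (hgen : IntermediateField.adjoin K (Set.range x) = ⊤)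
    (b : Fin n → F) (htb : IsTranscendenceBasis K b) : GoodModule O x := by
  classical
  have hOK : Function.Injective (algebraMap O K) := IsFractionRing.injective O K
  obtain ⟨s₀, hs₀, G₀, hG₀⟩ := clear_poly (R := K) (nonZeroDivisors O) G
  have hs₀0 : s₀ ≠ 0 := nonZeroDivisors.ne_zero hs₀
  have hs₀K : algebraMap O K s₀ ≠ 0 := fun h => hs₀0 (hOK (by rw [h, map_zero]))
  have hG₀0 : G₀ ≠ 0 := by
    rintro rfl
    rw [map_zero] at hG₀
    have h1 : (C (algebraMap O K s₀) : MvPolynomial (Fin (n + 2)) K) ≠ 0 := by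
      rwa [Ne, C_eq_zero]
    exact (mul_ne_zero h1 hG0) hG₀.symm
  have hG₀d : G₀.IsHomogeneous d := by
    refine IsHomogeneous.of_map (f := algebraMap O K) hOK ?_
    rw [hG₀]
    have h1 := (isHomogeneous_C (Fin (n + 2)) (algebraMap O K s₀)).mul hGd
    rwa [zero_add] at h1
  have hrelG₀ : aeval x G₀ = 0 := by
    rw [← aeval_map_algebraMap K x G₀, hG₀, map_mul, hrel, mul_zero]
  have hsm₀ : Smooth (map (algebraMap O K) G₀) := by
    have h1 := smooth_lin (1 : Matrix (Fin (n + 2)) (Fin (n + 2)) K) 1 (mul_one 1)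
      (algebraMap O K s₀) hs₀K G hsm
    have h2 : (aeval (fun i => ∑ j, C ((1 : Matrix (Fin (n + 2)) (Fin (n + 2)) K) i j) *
        (X j : MvPolynomial (Fin (n + 2)) K)) : MvPolynomial (Fin (n + 2)) K →ₐ[K] _) =
        AlgHom.id K _ := by
      apply MvPolynomial.algHom_ext
      intro i
      rw [aeval_X]
      simp [Matrix.one_apply]
    rw [h2, AlgHom.id_apply, ← hG₀] at h1
    exact h1
  have hex := fun i => clear_smooth (K := K) G₀ hsm₀ i
  choose c hc k hk using hex
  have hc0 : ∏ i, c i ≠ 0 := by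
    rw [Finset.prod_ne_zero_iff]
    exact fun i _ => hc i
  have hDspan : Ideal.span {∏ i, c i} ≠ ⊥ := by
    rw [Ne, Ideal.span_singleton_eq_bot]
    exact hc0
  let S : Finset (Ideal O) :=
    (UniqueFactorizationMonoid.normalizedFactors (Ideal.span {∏ i, c i})).toFinset
  have hS : ∀ 𝔭, 𝔭 ∈ S ↔ 𝔭.IsPrime ∧ ∏ i, c i ∈ 𝔭 := by
    intro 𝔭
    rw [Multiset.mem_toFinset, Ideal.mem_normalizedFactors_iff hDspan,
      Ideal.span_singleton_le_iff_mem]
  have hS0 : ∀ 𝔭 ∈ S, 𝔭 ≠ ⊥ := by
    intro 𝔭 h𝔭 h
    have h1 := ((hS 𝔭).1 h𝔭).2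
    rw [h] at h1
    exact hc0 h1
  refine goodModule_of_loc (K := K) x hx0 S (fun 𝔭 h𝔭 =>
    ⟨Ideal.IsPrime.isMaximal ((hS 𝔭).1 h𝔭).1 (hS0 𝔭 h𝔭), hS0 𝔭 h𝔭⟩) ?_ ?_
  · intro 𝔭 h𝔭
    have hpp := ((hS 𝔭).1 h𝔭).1
    have h0 := hS0 𝔭 h𝔭
    obtain ⟨H, l, T, T', hl, hTT, hH, hcrit⟩ := hloc 𝔭 hpp h0
    let x' : Fin (n + 2) → F := fun i => ∑ j, algebraMap K F (T' i j) * x j
    have hxx' : ∀ i, x i = ∑ j, algebraMap K F (T i j) * x' j := by
      intro i
      have h1 : ∑ j, algebraMap K F (T i j) * x' j =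
          ∑ m, (∑ j, algebraMap K F (T i j) * algebraMap K F (T' j m)) * x m := by
        simp only [x', Finset.mul_sum, Finset.sum_mul]
        rw [Finset.sum_comm]
        refine Finset.sum_congr rfl fun m _ => Finset.sum_congr rfl fun j _ => ?_
        ring
      have h2 : ∀ m, ∑ j, algebraMap K F (T i j) * algebraMap K F (T' j m) =
          if i = m then 1 else 0 := by
        intro m
        have h3 : (T * T') i m = (1 : Matrix (Fin (n + 2)) (Fin (n + 2)) K) i m := by rw [hTT]
        rw [Matrix.mul_apply, Matrix.one_apply] at h3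
        have h4 := congrArg (algebraMap K F) h3
        rw [map_sum] at h4
        simp only [map_mul] at h4
        rw [h4]
        split_ifs <;> simp
      rw [h1]
      simp only [h2, ite_mul, one_mul, zero_mul, Finset.sum_ite_eq, Finset.mem_univ, if_true]
    have hH0 : H ≠ 0 := by
      rintro rfl
      rw [map_zero] at hH
      have h1 : (aeval (fun i => ∑ j, C (T i j) * X j) :
          MvPolynomial (Fin (n + 2)) K →ₐ[K] MvPolynomial (Fin (n + 2)) K) G = 0 := by
        rcases mul_eq_zero.1 hH.symm with h | h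
        · exact absurd (C_eq_zero.1 h) hl
        · exact h
      have hTT' : T' * T = 1 := mul_eq_one_comm.1 hTT
      have h2 : (aeval (fun i => ∑ j, C (T' i j) * X j) :
          MvPolynomial (Fin (n + 2)) K →ₐ[K] MvPolynomial (Fin (n + 2)) K)
          ((aeval (fun i => ∑ j, C (T i j) * X j) :
          MvPolynomial (Fin (n + 2)) K →ₐ[K] MvPolynomial (Fin (n + 2)) K) G) = G := by
        rw [← AlgHom.comp_apply]
        have h3 : (aeval (fun i => ∑ j, C (T' i j) * X j) :
          MvPolynomial (Fin (n + 2)) K →ₐ[K] MvPolynomial (Fin (n + 2)) K).comp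
          (aeval (fun i => ∑ j, C (T i j) * X j) :
          MvPolynomial (Fin (n + 2)) K →ₐ[K] MvPolynomial (Fin (n + 2)) K) = AlgHom.id K _ := by
          apply MvPolynomial.algHom_ext
          intro i
          rw [AlgHom.comp_apply, aeval_X, map_sum, AlgHom.id_apply]
          simp only [map_mul, aeval_X, aeval_C, algebraMap_eq]
          have h1 : ∑ j, C (T i j) * ∑ m, C (T' j m) * X m =
              ∑ m, C (∑ j, T i j * T' j m) * (X m : MvPolynomial (Fin (n + 2)) K) := by
            simp only [Finset.mul_sum, Finset.sum_mul, map_sum]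
            rw [Finset.sum_comm]
            refine Finset.sum_congr rfl fun m _ => Finset.sum_congr rfl fun j _ => ?_
            rw [C_mul]
            ring
          rw [h1]
          have h2 : ∀ m, ∑ j, T i j * T' j m = if i = m then 1 else 0 := by
            intro m
            rw [← Matrix.mul_apply, hTT, Matrix.one_apply]
          simp only [h2]
          simp
        rw [h3, AlgHom.id_apply]
      rw [h1, map_zero] at h2
      exact hG0 h2.symm
    have hHd : H.IsHomogeneous d := by
      refine IsHomogeneous.of_map (f := algebraMap O K) hOK ?_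
      rw [hH]
      have h1 : ((aeval (fun i => ∑ j, C (T i j) * X j) :
          MvPolynomial (Fin (n + 2)) K →ₐ[K] MvPolynomial (Fin (n + 2)) K) G).IsHomogeneous
            (1 * d) := by
        refine hGd.aeval _ fun i => ?_
        refine IsHomogeneous.sum _ _ _ fun j _ => ?_
        have h2 := (isHomogeneous_C (Fin (n + 2)) (T i j)).mul (isHomogeneous_X K j)
        rwa [zero_add] at h2
      have h2 := (isHomogeneous_C (Fin (n + 2)) l).mul h1
      rwa [zero_add, one_mul] at h2
    have hrelH : aeval x' H = 0 := by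
      rw [← aeval_map_algebraMap K x' H, hH, map_mul]
      have h1 : aeval x' ((aeval (fun i => ∑ j, C (T i j) * X j) :
          MvPolynomial (Fin (n + 2)) K →ₐ[K] MvPolynomial (Fin (n + 2)) K) G) = aeval x G := by
        rw [← AlgHom.comp_apply]
        congr 1
        apply MvPolynomial.algHom_ext
        intro i
        rw [AlgHom.comp_apply, aeval_X, aeval_X, map_sum, hxx' i]
        refine Finset.sum_congr rfl fun j _ => ?_
        rw [map_mul, aeval_X, aeval_C]
      rw [h1, hrel, mul_zero]
    rcases hcrit with hcrit | hnode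
    · exact locMod_of_crit (K := K) 𝔭 h0 H hH0 d hHd hcrit x hx0 hgen b htb x' (fun i j => T i j)
        (fun i j => T' i j) hxx' (fun i => rfl) hrelH
    · have hsmH : Smooth (map (algebraMap O K) H) := by
        rw [hH]
        exact smooth_lin T T' hTT l hl G hsm
      obtain ⟨c₁, hc₁, e, he⟩ := clear_smooth (K := K) H hsmH 0
      exact locMod_of_node (K := K) 𝔭 h0 H hH0 d hHd hnode c₁ hc₁ e he x hx0 hgen b htb x'
        (fun i j => T i j) (fun i j => T' i j) hxx' (fun i => rfl) hrelH
  · intro 𝔭 hpp h𝔭 D hD M hM hM2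
    have hprod : ∏ i, c i ∉ 𝔭 := fun h => h𝔭 ((hS 𝔭).2 ⟨hpp, h⟩)
    have hcp : ∀ i, c i ∉ 𝔭 := fun i h => hprod
      (Ideal.mem_of_dvd 𝔭 (Finset.dvd_prod_of_mem c (Finset.mem_univ i)) h)
    refine regAt_of_crit (K := K) 𝔭 G₀ hG₀0 d hG₀d
      (crit_of_smooth 𝔭 G₀ d hG₀d fun i => ⟨c i, hcp i, k i, hk i⟩) x hx0 hgen b htb x
      (fun i j => if i = j then 1 else 0) ?_ hrelG₀ D hD M hM hM2
    intro i
    simp only [apply_ite (algebraMap K F), map_one, map_zero, ite_mul, one_mul, zero_mul,
      Finset.sum_ite_eq, Finset.mem_univ, if_true]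

end

theorem model_node {K : Type} [Field K] [NumberField K] {n : ℕ} (hn : 1 ≤ n)
    (G : MvPolynomial (Fin (n + 2)) K) (d : ℕ) (hd : 2 ≤ d) (hGd : G.IsHomogeneous d)
    (hsm : Smooth G) (hloc : LocNode (𝓞 K) G) {A : Type} [CommRing A] [Algebra K A]
    (π : MvPolynomial (Fin (n + 2)) K →ₐ[K] A) (hπ : Function.Surjective π)
    (hker : RingHom.ker π = Ideal.span {G})
    (𝒜 : ℕ → Submodule K A) [GradedAlgebra 𝒜]
    (h𝒜 : ∀ d, 𝒜 d = (homogeneousSubmodule (Fin (n + 2)) K d).map π.toLinearMap)
    (Y : Scheme.{0}) (hY : Nonempty (Y ≅ Proj 𝒜)) : HasRegularModel Y := by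
  have hirr := irreducible_of_smooth hn G d (by omega) hGd hsm
  obtain ⟨F, _, _, x, b, hx0, hrel, hgen, htb⟩ := exists_ff G hirr d hGd
    (not_dvd_X G hirr.ne_zero d hd hGd)
  let _ : Algebra (𝓞 K) F := ((algebraMap K F).comp (algebraMap (𝓞 K) K)).toAlgebra
  have hst : IsScalarTower (𝓞 K) K F := IsScalarTower.of_algebraMap_eq fun _ => rfl
  have hM : GoodModule (𝓞 K) x :=
    goodModule_of_locNode (K := K) G hirr.ne_zero d hGd hsm hloc x hx0 hrel hgen b htb
  obtain ⟨ε, hε, hεgen, hε1⟩ := exists_eps x hx0 hgen _ htb G hirr.prime d hGd hrel π hπ hker 𝒜 h𝒜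
  exact hasRegularModel_of_goodModule (O := 𝓞 K) 𝒜 ε hε hεgen x hε1 hM Y hY

end Pool.Agent.V8H73.ND
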