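import Pool.Agent.H918R2.Quad.Pres

/-! Regularity criteria for the charts of the blow-ups of an ordinary double point. -/

set_option autoImplicit false
set_option linter.unusedSectionVars false
set_option linter.unusedVariables false

namespace Pool.Agent.V8H73.ND

open MvPolynomial Pool.Agent.H918R2.Quad

section maps

variable {R : Type} [CommRing R] [IsDomain R] [IsDiscreteValuationRing R] {J : Type}

/-- reduce the coefficients and put the variable `none` equal to zero -/
noncomputable def th (R J : Type) [CommRing R] [IsDomain R] [IsDiscreteValuationRing R] :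
    MvPolynomial (Option J) R →+* MvPolynomial J (IsLocalRing.ResidueField R) :=
  eval₂Hom (C.comp (IsLocalRing.residue R)) (fun o => o.elim 0 X)

theorem th_C (r : R) : th R J (C r) = C (IsLocalRing.residue R r) := by simp [th]

theorem th_none : th R J (X none) = 0 := by simp [th]

theorem th_some (j : J) : th R J (X (some j)) = X j := by simp [th]

theorem th_surj : Function.Surjective (th R J) := by
  intro p
  induction p using MvPolynomial.induction_on with
  | C a =>
    obtain ⟨r, rfl⟩ := IsLocalRing.residue_surjective a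
    exact ⟨C r, th_C r⟩
  | add p q hp hq =>
    obtain ⟨p', rfl⟩ := hp
    obtain ⟨q', rfl⟩ := hq
    exact ⟨p' + q', map_add _ _ _⟩
  | mul_X p j hp =>
    obtain ⟨p', rfl⟩ := hp
    exact ⟨p' * X (some j), by rw [map_mul, th_some]⟩

theorem ker_th (π : R) (hπ : Irreducible π) :
    RingHom.ker (th R J) ≤ Ideal.span {X none, C π} := by
  set I : Ideal (MvPolynomial (Option J) R) := Ideal.span {X none, C π} with hI
  set mk := Ideal.Quotient.mk I with hmk
  set r0 : R →+* (MvPolynomial (Option J) R ⧸ I) := mk.comp C with hr0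
  have hr0m : ∀ a ∈ IsLocalRing.maximalIdeal R, r0 a = 0 := by
    intro a ha
    rw [hπ.maximalIdeal_eq, Ideal.mem_span_singleton] at ha
    obtain ⟨c, rfl⟩ := ha
    rw [map_mul]
    have : r0 π = 0 := by
      simp only [hr0, RingHom.comp_apply, hmk]
      rw [Ideal.Quotient.eq_zero_iff_mem, hI]
      exact Ideal.subset_span (by simp)
    rw [this, zero_mul]
  set r1 : IsLocalRing.ResidueField R →+* (MvPolynomial (Option J) R ⧸ I) :=
    Ideal.Quotient.lift (IsLocalRing.maximalIdeal R) r0 hr0m with hr1
  have hr1c : r1.comp (IsLocalRing.residue R) = r0 := by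
    ext a
    rfl
  set r3 : MvPolynomial J (IsLocalRing.ResidueField R) →+* (MvPolynomial (Option J) R ⧸ I) :=
    MvPolynomial.eval₂Hom r1 (fun j => mk (X (some j))) with hr3
  have hcomp : r3.comp (th R J) = mk := by
    apply MvPolynomial.ringHom_ext'
    · ext a
      simp only [RingHom.comp_apply, th_C, hr3, MvPolynomial.coe_eval₂Hom, MvPolynomial.eval₂_C]
      rw [← RingHom.comp_apply, hr1c]
      rfl
    · intro o
      cases o with
      | none =>
        simp only [RingHom.comp_apply, th_none, map_zero]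
        symm
        rw [hmk, Ideal.Quotient.eq_zero_iff_mem, hI]
        exact Ideal.subset_span (by simp)
      | some j =>
        simp only [RingHom.comp_apply, th_some, hr3, MvPolynomial.coe_eval₂Hom,
          MvPolynomial.eval₂_X]
  intro p hp
  rw [RingHom.mem_ker] at hp
  have h1 : mk p = 0 := by
    rw [← hcomp, RingHom.comp_apply, hp, map_zero]
  rwa [hmk, Ideal.Quotient.eq_zero_iff_mem] at h1

theorem height_ker (π : R) (hπ : Irreducible π) :
    (2 : ℕ∞) ≤ (RingHom.ker (th R J)).height := by
  set A1 : MvPolynomial (Option J) R →+* MvPolynomial (Option J) (IsLocalRing.ResidueField R) :=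
    map (IsLocalRing.residue R) with hA1
  have p1 : (RingHom.ker A1).IsPrime := RingHom.ker_isPrime _
  have p2 : (RingHom.ker (th R J)).IsPrime := RingHom.ker_isPrime _
  have p0 : (⊥ : Ideal (MvPolynomial (Option J) R)).IsPrime := Ideal.isPrime_bot
  have hres : IsLocalRing.residue R π = 0 := by
    rw [IsLocalRing.residue_eq_zero_iff, hπ.maximalIdeal_eq]
    exact Ideal.mem_span_singleton_self π
  have h01 : (⊥ : Ideal (MvPolynomial (Option J) R)) < RingHom.ker A1 := by
    rw [bot_lt_iff_ne_bot]
    intro h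
    have hm : C π ∈ RingHom.ker A1 := by
      rw [RingHom.mem_ker, hA1, map_C, hres, C_0]
    rw [h, Ideal.mem_bot] at hm
    simp at hm
    exact hπ.ne_zero hm
  have h12 : RingHom.ker A1 < RingHom.ker (th R J) := by
    refine lt_of_le_of_ne ?_ ?_
    · intro p hp
      have h3 : th R J = (eval₂Hom C (fun o : Option J => o.elim 0 X)).comp A1 := by
        apply MvPolynomial.ringHom_ext'
        · ext a
          simp [th, hA1]
        · intro o
          simp [th, hA1]
      rw [RingHom.mem_ker] at hp ⊢
      rw [h3, RingHom.comp_apply, hp, map_zero]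
    · intro h
      have hm : (X none : MvPolynomial (Option J) R) ∈ RingHom.ker (th R J) := by
        rw [RingHom.mem_ker, th_none]
      rw [← h, RingHom.mem_ker, hA1, map_X] at hm
      exact X_ne_zero _ hm
  have e1 := Ideal.height_add_one_le_of_lt_of_isPrime h01
  have e2 := Ideal.height_add_one_le_of_lt_of_isPrime h12
  have e0 : (1 : ℕ∞) ≤ (RingHom.ker A1).height := le_trans (by simp) e1
  refine le_trans ?_ e2
  calc (2 : ℕ∞) = 1 + 1 := by norm_num
    _ ≤ _ := by gcongr

/-- The two relations `X none * X (some b) = π` and `E = 0`, at the points with `X none = 0`. -/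
theorem crit_two [Finite J] {A : Type} [CommRing A] (π : R) (hπ : Irreducible π) (b : J)
    (E : MvPolynomial (Option J) R) (hEne : E ≠ X none * X (some b) - C π)
    (pr : MvPolynomial (Option J) R →+* A) (hpr : Function.Surjective pr)
    (hker : RingHom.ker pr = Ideal.span {X none * X (some b) - C π, E})
    (q : Ideal A) [q.IsPrime] (hq : pr (X none) ∈ q)
    (hE2 : ∀ c : MvPolynomial J (IsLocalRing.ResidueField R),
      c ∉ (q.comap pr).map (th R J) → c * th R J E ∉ ((q.comap pr).map (th R J)) ^ 2) :
    IsRegularLocalRing (Localization.AtPrime q) := by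
  classical
  have hpr1 : pr (X none * X (some b) - C π) = 0 := by
    rw [← RingHom.mem_ker, hker]; exact Ideal.subset_span (by simp)
  have hpr2 : pr E = 0 := by
    rw [← RingHom.mem_ker, hker]; exact Ideal.subset_span (by simp)
  have hpi : pr (C π) = pr (X none) * pr (X (some b)) := by
    rw [map_sub, sub_eq_zero, map_mul] at hpr1
    exact hpr1.symm
  have hspan : ∀ x ∈ RingHom.ker (th R J), pr x ∈ Ideal.span {pr (X none)} := by
    intro x hx
    have h1 := ker_th π hπ hx
    have h2 : Ideal.span {X none, C π} ≤ (Ideal.span {pr (X none)}).comap pr := by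
      rw [Ideal.span_le]
      rintro y (rfl | rfl)
      · exact Ideal.mem_span_singleton_self _
      · rw [SetLike.mem_coe, Ideal.mem_comap, hpi]
        exact Ideal.mul_mem_right _ _ (Ideal.mem_span_singleton_self _)
    exact h2 h1
  have hkerq : RingHom.ker (th R J) ≤ q.comap pr := by
    intro x hx
    rw [Ideal.mem_comap]
    have h1 := hspan x hx
    have h2 : Ideal.span {pr (X none)} ≤ q := by
      rw [Ideal.span_le]
      rintro y rfl
      exact hq
    exact h2 h1
  refine reg_crit_one (W := MvPolynomial (Option J) R) pr hpr {X none * X (some b) - C π, E} ?_ q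
    (th R J) th_surj hkerq {X none} ?_ ?_ E hpr2 hE2 ?_
  · rw [hker]
    congr 1
    simp
  · intro x hx
    rw [Finset.mem_singleton] at hx
    rw [hx]
    exact hq
  · intro x hx
    refine ⟨1, ?_, ?_⟩
    · rw [map_one]
      intro h
      exact Ideal.IsPrime.ne_top ‹_› ((Ideal.eq_top_iff_one q).2 h)
    · rw [one_mul, Finset.coe_singleton, Set.image_singleton]
      exact hspan x hx
  · have h1 : (({X none} : Finset (MvPolynomial (Option J) R)).card +
        ({X none * X (some b) - C π, E} : Finset (MvPolynomial (Option J) R)).card : ℕ) = 3 := by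
      rw [Finset.card_singleton, Finset.card_pair hEne.symm]
    rw [h1]
    calc ((3 : ℕ) : ℕ∞) = 2 + 1 := by norm_num
      _ ≤ _ := by
        gcongr
        exact height_ker π hπ

end maps

section quad

variable {K : Type} [Field K] {n : ℕ}

/-- the affine coordinates: `τ j₁ = 1` -/
noncomputable def tv {B : Type} [CommRing B] (j₁ : Fin n) (j : Fin n) :
    MvPolynomial (Option {j : Fin n // j ≠ j₁}) B :=
  if h : j = j₁ then 1 else X (some ⟨j, h⟩)

/-- the quadratic equation -/
noncomputable def qd (j₁ : Fin n) (b : K) (c : Fin n → Fin n → K) :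
    MvPolynomial (Option {j : Fin n // j ≠ j₁}) K :=
  C b * X none ^ 2 + ∑ s, ∑ r, C (c s r) * tv j₁ s * tv j₁ r

theorem pderiv_tv (j₁ : Fin n) (j : {j : Fin n // j ≠ j₁}) (s : Fin n) :
    pderiv (some j) (tv (B := K) j₁ s) = if s = j then 1 else 0 := by
  unfold tv
  split_ifs with h1 h2 h2
  · exact absurd (h2.symm.trans h1) j.2
  · exact pderiv_one
  · subst h2
    exact pderiv_X_self _
  · rw [pderiv_X_of_ne]
    intro h3
    apply h2
    have := Option.some.inj h3
    rw [← this]

theorem pderiv_tv_none (j₁ : Fin n) (s : Fin n) :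
    pderiv (none : Option {j : Fin n // j ≠ j₁}) (tv (B := K) j₁ s) = 0 := by
  unfold tv
  split_ifs with h1
  · exact pderiv_one
  · rw [pderiv_X_of_ne (by simp)]

theorem pderiv_qd_none (j₁ : Fin n) (b : K) (c : Fin n → Fin n → K) :
    pderiv none (qd j₁ b c) = C (2 * b) * X none := by
  unfold qd
  rw [map_add, map_sum, pderiv_C_mul, pderiv_pow, pderiv_X_self]
  have h : ∀ s, pderiv (none : Option {j : Fin n // j ≠ j₁})
      (∑ r, C (c s r) * tv (B := K) j₁ s * tv j₁ r) = 0 := by
    intro s
    rw [map_sum]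
    refine Finset.sum_eq_zero fun r _ => ?_
    rw [pderiv_mul, pderiv_C_mul, pderiv_tv_none, pderiv_tv_none]
    simp
  simp only [h, Finset.sum_const_zero, add_zero]
  rw [C_mul]
  have : (C (2 : K) : MvPolynomial (Option {j : Fin n // j ≠ j₁}) K) = 2 := by
    rw [map_ofNat]
  rw [this]
  push_cast
  ring

theorem pderiv_qd_some (j₁ : Fin n) (b : K) (c : Fin n → Fin n → K) (j : {j : Fin n // j ≠ j₁}) :
    pderiv (some j) (qd j₁ b c) = ∑ r, C (c j r + c r j) * tv j₁ r := by
  unfold qd
  rw [map_add, map_sum, pderiv_C_mul, pderiv_pow, pderiv_X_of_ne (by simp)]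
  have h : ∀ s, pderiv (some j) (∑ r, C (c s r) * tv (B := K) j₁ s * tv j₁ r) =
      ∑ r, ((if s = j then C (c s r) * tv j₁ r else 0) +
        (if r = j then C (c s r) * tv j₁ s else 0)) := by
    intro s
    rw [map_sum]
    refine Finset.sum_congr rfl fun r _ => ?_
    rw [pderiv_mul, pderiv_C_mul, pderiv_tv, pderiv_tv]
    split_ifs <;> ring
  simp only [h, Finset.sum_add_distrib, mul_zero, zero_add]
  have h1 : ∑ s, ∑ r, (if s = (j : Fin n) then C (c s r) * tv (B := K) j₁ r else 0) =
      ∑ r, C (c j r) * tv j₁ r := by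
    rw [Finset.sum_comm]
    refine Finset.sum_congr rfl fun r _ => ?_
    rw [Finset.sum_ite_eq' Finset.univ (j : Fin n) (fun s => C (c s r) * tv (B := K) j₁ r),
      if_pos (Finset.mem_univ _)]
  have h2 : ∑ s, ∑ r, (if r = (j : Fin n) then C (c s r) * tv (B := K) j₁ s else 0) =
      ∑ r, C (c r j) * tv j₁ r := by
    refine Finset.sum_congr rfl fun s _ => ?_
    rw [Finset.sum_ite_eq' Finset.univ (j : Fin n) (fun r => C (c s r) * tv (B := K) j₁ s),
      if_pos (Finset.mem_univ _)]
  rw [h1, h2, ← Finset.sum_add_distrib]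
  refine Finset.sum_congr rfl fun r _ => ?_
  rw [C_add]
  ring

/-- the quadric is smooth -/
theorem qd_smooth (j₁ : Fin n) (b : K) (c : Fin n → Fin n → K)
    (hc : IsUnit (Matrix.of fun s r => c s r + c r s).det)
    (Q : Ideal (MvPolynomial (Option {j : Fin n // j ≠ j₁}) K)) [Q.IsPrime]
    (hQ : qd j₁ b c ∈ Q) : ∃ j, pderiv j (qd j₁ b c) ∉ Q := by
  by_contra hcon
  push Not at hcon
  set y : Fin n → MvPolynomial (Option {j : Fin n // j ≠ j₁}) K :=
    fun s => ∑ r, C (c s r + c r s) * tv j₁ r with hy
  have h1 : ∀ s, s ≠ j₁ → y s ∈ Q := by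
    intro s hs
    have := hcon (some ⟨s, hs⟩)
    rwa [pderiv_qd_some] at this
  have h2 : ∑ s, tv j₁ s * y s ∈ Q := by
    have h3 : ∑ s, tv j₁ s * y s = 2 * (qd j₁ b c) - X none * (C (2 * b) * X none) := by
      have h4 : ∑ s, tv j₁ s * y s = 2 * ∑ s, ∑ r, C (c s r) * tv (B := K) j₁ s * tv j₁ r := by
        have h5 : ∑ s, tv j₁ s * y s = (∑ s, ∑ r, C (c s r) * tv (B := K) j₁ s * tv j₁ r) +
            ∑ s, ∑ r, C (c r s) * tv (B := K) j₁ s * tv j₁ r := by
          rw [← Finset.sum_add_distrib]
          refine Finset.sum_congr rfl fun s _ => ?_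
          rw [hy, Finset.mul_sum, ← Finset.sum_add_distrib]
          refine Finset.sum_congr rfl fun r _ => ?_
          rw [C_add]
          ring
        have h6 : ∑ s, ∑ r, C (c r s) * tv (B := K) j₁ s * tv j₁ r =
            ∑ s, ∑ r, C (c s r) * tv (B := K) j₁ s * tv j₁ r := by
          rw [Finset.sum_comm]
          refine Finset.sum_congr rfl fun s _ => Finset.sum_congr rfl fun r _ => ?_
          ring
        rw [h5, h6, two_mul]
      rw [h4]
      unfold qd
      have h7 : (C (2 * b) : MvPolynomial (Option {j : Fin n // j ≠ j₁}) K) = 2 * C b := by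
        rw [C_mul, map_ofNat]
      rw [h7]
      ring
    rw [h3]
    refine Q.sub_mem (Q.mul_mem_left _ hQ) (Q.mul_mem_left _ ?_)
    have := hcon none
    rwa [pderiv_qd_none] at this
  have h3 : y j₁ ∈ Q := by
    rw [Finset.sum_eq_add_sum_sdiff_singleton_of_mem (Finset.mem_univ j₁)] at h2
    have h4 : (tv j₁ j₁ : MvPolynomial (Option {j : Fin n // j ≠ j₁}) K) = 1 := by
      unfold tv
      rw [dif_pos rfl]
    rw [h4, one_mul] at h2
    have h5 : ∑ s ∈ Finset.univ \ {j₁}, tv j₁ s * y s ∈ Q := by
      refine Q.sum_mem fun s hs => Q.mul_mem_left _ (h1 s ?_)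
      intro h
      rw [h] at hs
      simp at hs
    have h6 := Q.sub_mem h2 h5
    rwa [add_sub_cancel_right] at h6
  have hall : ∀ s, y s ∈ Q := by
    intro s
    by_cases hs : s = j₁
    · rw [hs]; exact h3
    · exact h1 s hs
  -- invert the matrix
  set M : Matrix (Fin n) (Fin n) K := Matrix.of fun s r => c s r + c r s with hM
  have hinv : M⁻¹ * M = 1 := Matrix.nonsing_inv_mul M hc
  have h7 : (tv j₁ j₁ : MvPolynomial (Option {j : Fin n // j ≠ j₁}) K) =
      ∑ s, C (M⁻¹ j₁ s) * y s := by
    have h8 : ∑ s, C (M⁻¹ j₁ s) * y s =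
        ∑ r, C ((M⁻¹ * M) j₁ r) * (tv j₁ r : MvPolynomial (Option {j : Fin n // j ≠ j₁}) K) := by
      simp only [hy, Finset.mul_sum]
      rw [Finset.sum_comm]
      refine Finset.sum_congr rfl fun r _ => ?_
      rw [Matrix.mul_apply, map_sum, Finset.sum_mul]
      refine Finset.sum_congr rfl fun s _ => ?_
      rw [C_mul, hM, Matrix.of_apply]
      ring
    rw [h8, hinv]
    simp [Matrix.one_apply]
  have h9 : (tv j₁ j₁ : MvPolynomial (Option {j : Fin n // j ≠ j₁}) K) ∈ Q := by
    rw [h7]
    exact Q.sum_mem fun s _ => Q.mul_mem_left _ (hall s)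
  have h10 : (tv j₁ j₁ : MvPolynomial (Option {j : Fin n // j ≠ j₁}) K) = 1 := by
    unfold tv
    rw [dif_pos rfl]
  rw [h10] at h9
  exact Ideal.IsPrime.ne_top ‹_› ((Ideal.eq_top_iff_one Q).2 h9)

/-- a polynomial with a derivative outside of `Q` is not in the square of `Q` -/
theorem not_sq {S σ : Type} [CommRing S] (G : MvPolynomial σ S)
    (Q : Ideal (MvPolynomial σ S)) [Q.IsPrime] (hG : G ∈ Q) (j : σ) (hj : pderiv j G ∉ Q)
    (c : MvPolynomial σ S) (hcQ : c ∉ Q) : c * G ∉ Q ^ 2 := by
  intro h
  apply hj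
  have hD : ∀ x ∈ Q ^ 2, pderiv j x ∈ Q := by
    intro x hx
    rw [pow_two] at hx
    refine Submodule.mul_induction_on hx ?_ ?_
    · intro y hy z hz
      rw [pderiv_mul]
      exact Q.add_mem (Q.mul_mem_left _ hz) (Q.mul_mem_right _ hy)
    · intro y z hy hz
      rw [map_add]
      exact Q.add_mem hy hz
  have h1 := hD _ h
  rw [pderiv_mul] at h1
  have h2 : c * pderiv j G ∈ Q := by
    have h3 := Q.sub_mem h1 (Q.mul_mem_left (pderiv j c) hG)
    rwa [add_sub_cancel_left] at h3
  exact (Ideal.IsPrime.mem_or_mem ‹_› h2).resolve_left hcQ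

end quad

end Pool.Agent.V8H73.ND
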