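import Pool.Agent.V8H73.ND.Local
import Pool.Agent.TH214.RM.Fin

/-! The local module at a prime over which the hypersurface has an ordinary double point. -/

set_option autoImplicit false
set_option linter.unusedSectionVars false
set_option linter.unusedVariables false

open scoped Pointwise

namespace Pool.Agent.V8H73.ND

open MvPolynomial Pool.Agent.H918R2.Quad Pool.Agent.TH214.RM Pool.Agent.H945R2.E
  Pool.Agent.W418

section

variable {O R K F : Type} [CommRing O] [IsDedekindDomain O] [Field K] [Algebra O K]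
  [IsFractionRing O K] [Field F] [Algebra K F] [Algebra O F] [IsScalarTower O K F]
  [CommRing R] [IsDomain R] [IsDiscreteValuationRing R] [Algebra O R] [Algebra R K]
  [Algebra R F] [IsScalarTower O R F] [IsScalarTower R K F] [IsFractionRing R K]

theorem locMod_node (𝔭 : Ideal O) [𝔭.IsPrime] [IsLocalization.AtPrime R 𝔭] {n : ℕ}
    (G : MvPolynomial (Fin (n + 2)) R) (hG0 : G ≠ 0) (d : ℕ) (hGd : G.IsHomogeneous d)
    (hoff : RegOff G) (G' : MvPolynomial (Fin (n + 2)) R) (hGd' : G'.IsHomogeneous d)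
    (π : O) (hπ : Irreducible (algebraMap O R π))
    (b : R) (hb : IsUnit b) (k : ℕ) (hk : 1 ≤ k) (a : Fin (n + 1) → R)
    (H : Fin (n + 1) → Fin (n + 1) → MvPolynomial (Fin (n + 1)) R)
    (hdet : IsUnit (Matrix.of fun s r => coeff 0 (H s r) + coeff 0 (H r s)).det)
    (hnode : deh0 G' = nodeEq (algebraMap O R π) b k a H)
    (x : Fin (n + 2) → F) (hx0 : x 0 = 1)
    (hgen : IntermediateField.adjoin K (Set.range x) = ⊤)
    (c : Fin n → F) (htb : IsTranscendenceBasis K c)
    (x' : Fin (n + 2) → F) (u : Fin (n + 2) → Fin (n + 2) → K)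
    (hu : ∀ i, x i = ∑ j, algebraMap K F (u i j) * x' j)
    (y : Fin (n + 2) → F) (c₀ : Fin (n + 1) → R) (hc₀ : ∀ j, algebraMap O R π ∣ c₀ j)
    (hy0 : y 0 = x' 0) (hy : ∀ j, y j.succ = x' j.succ + algebraMap R F (c₀ j) * x' 0)
    (hrel : aeval y G = 0) (hrel' : aeval x' G' = 0) :
    LocMod 𝔭 x' := by
  classical
  have hinj : Function.Injective (algebraMap R K) := IsFractionRing.injective R K
  have hinjF : Function.Injective (algebraMap R F) := by
    rw [IsScalarTower.algebraMap_eq R K F]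
    exact (algebraMap K F).injective.comp hinj
  set m := k / 2 with hm
  refine ⟨m + 1, fun D hD => ?_⟩
  set D' := D - m with hD'
  have hDD : m + D' = D := by omega
  have hD'1 : 1 ≤ D' := by omega
  set ϖ : R := algebraMap O R π with hϖ
  have hmap : ∀ i : ℕ, algebraMap R F (ϖ ^ i) = algebraMap O F (π ^ i) := by
    intro i
    rw [hϖ, ← map_pow, ← IsScalarTower.algebraMap_apply]
  set N := Submodule.span O (Set.range x' ^ D) with hN
  set NG := Submodule.span O (Gn ϖ m D' x') with hNG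
  have h1𝔭 : (1 : O) ∉ 𝔭 := (Ideal.ne_top_iff_one 𝔭).1 Ideal.IsPrime.ne_top'
  have hmul : ∀ s t : O, s ∉ 𝔭 → t ∉ 𝔭 → s * t ∉ 𝔭 := fun s t hs ht h =>
    (Ideal.IsPrime.mem_or_mem ‹𝔭.IsPrime› h).elim hs ht
  -- products of coordinates
  have hprodN : ∀ (ψ : Fin m → Fin (n + 2)) (φ : Fin D' → Fin (n + 2)),
      (∏ i, x' (ψ i)) * ∏ l, x' (φ l) ∈ N := by
    intro ψ φ
    apply Submodule.subset_span
    rw [← hDD]
    rw [pow_add]
    refine Set.mul_mem_mul ?_ ?_
    · exact (Pool.Agent.H945R2.D.GD1aux.mem_range_pow x' m _).2 ⟨ψ, rfl⟩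
    · exact (Pool.Agent.H945R2.D.GD1aux.mem_range_pow x' D' _).2 ⟨φ, rfl⟩
  have hGnN : NG ≤ N := by
    rw [hNG, Submodule.span_le]
    rintro _ ⟨ψ, φ, rfl⟩
    have h1 : gval ϖ x' ψ φ = (∏ i, if ψ i = 0 then π ^ ((i : ℕ) + 1) else 1 : O) •
        ((∏ i, x' (ψ i)) * ∏ l, x' (φ l)) := by
      unfold gval
      rw [Algebra.smul_def, map_prod, ← mul_assoc, ← Finset.prod_mul_distrib]
      congr 1
      refine Finset.prod_congr rfl fun i _ => ?_
      unfold yy
      split_ifs with h
      · rw [hmap, h]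
      · rw [map_one, one_mul]
    rw [h1]
    exact N.smul_mem _ (hprodN ψ φ)
  let P : Submodule O F :=
    { carrier := {y | y ∈ N ∧ ∃ s : O, s ∉ 𝔭 ∧ s • y ∈ NG}
      zero_mem' := ⟨N.zero_mem, 1, h1𝔭, by rw [smul_zero]; exact NG.zero_mem⟩
      add_mem' := by
        rintro y z ⟨hy, s, hs, hsy⟩ ⟨hz, t, ht, htz⟩
        refine ⟨N.add_mem hy hz, s * t, hmul s t hs ht, ?_⟩
        rw [smul_add]
        refine NG.add_mem ?_ ?_
        · rw [mul_comm, mul_smul]
          exact NG.smul_mem _ hsy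
        · rw [mul_smul]
          exact NG.smul_mem _ htz
      smul_mem' := by
        rintro r y ⟨hy, s, hs, hsy⟩
        refine ⟨N.smul_mem r hy, s, hs, ?_⟩
        rw [smul_comm]
        exact NG.smul_mem _ hsy }
  have hPmem : ∀ y, y ∈ P ↔ y ∈ N ∧ ∃ s : O, s ∉ 𝔭 ∧ s • y ∈ NG := fun y => Iff.rfl
  refine ⟨P, ?_, ?_, ?_⟩
  · intro y hy
    exact ⟨1, h1𝔭, by rw [one_smul]; exact hy.1⟩
  · -- the power of the prime
    refine ⟨∑ i : Fin m, ((i : ℕ) + 1), fun c' hc' y hy => ?_⟩
    refine ⟨N.smul_mem _ hy, ?_⟩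
    set e := ∑ i : Fin m, ((i : ℕ) + 1) with he
    -- `c'` is `π ^ e` times an element, locally
    obtain ⟨s, hs, r, hr⟩ : ∃ s : O, s ∉ 𝔭 ∧ ∃ r : O, s * c' = π ^ e * r := by
      have h1 : algebraMap O R c' ∈ (IsLocalRing.maximalIdeal R) ^ e := by
        have h2 := Ideal.mem_map_of_mem (algebraMap O R) hc'
        rw [Ideal.map_pow, IsLocalization.AtPrime.map_eq_maximalIdeal 𝔭 R] at h2
        exact h2
      rw [hπ.maximalIdeal_eq, Ideal.span_singleton_pow, Ideal.mem_span_singleton] at h1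
      obtain ⟨q, hq⟩ := h1
      obtain ⟨r, s, rfl⟩ := IsLocalization.exists_mk'_eq 𝔭.primeCompl q
      refine ⟨s, s.2, r, ?_⟩
      apply IsLocalization.injective R 𝔭.primeCompl_le_nonZeroDivisors
      rw [map_mul, map_mul, map_pow, hq]
      have h3 := IsLocalization.mk'_spec' R r s
      rw [mul_left_comm, h3]
    refine ⟨s, hs, ?_⟩
    rw [smul_smul, hr, mul_comm, mul_smul]
    apply NG.smul_mem
    induction hy using Submodule.span_induction with
    | mem y hy =>
      rw [← hDD, pow_add] at hy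
      obtain ⟨y₁, hy₁, y₂, hy₂, rfl⟩ := hy
      obtain ⟨ψ, rfl⟩ := (Pool.Agent.H945R2.D.GD1aux.mem_range_pow x' m _).1 hy₁
      obtain ⟨φ, rfl⟩ := (Pool.Agent.H945R2.D.GD1aux.mem_range_pow x' D' _).1 hy₂
      have h1 : π ^ e • ((∏ i, x' (ψ i)) * ∏ l, x' (φ l)) =
          (∏ i, if ψ i = 0 then 1 else π ^ ((i : ℕ) + 1) : O) • gval ϖ x' ψ φ := by
        unfold gval
        rw [Algebra.smul_def, Algebra.smul_def, map_prod, ← mul_assoc, ← mul_assoc,
          ← Finset.prod_mul_distrib, he, ← Finset.prod_pow_eq_pow_sum, map_prod,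
          ← Finset.prod_mul_distrib]
        congr 1
        refine Finset.prod_congr rfl fun i _ => ?_
        unfold yy
        split_ifs with h
        · rw [hmap, h, map_one, one_mul]
        · rfl
      change π ^ e • ((∏ i, x' (ψ i)) * ∏ l, x' (φ l)) ∈ NG
      rw [h1]
      exact NG.smul_mem _ (Submodule.subset_span ⟨ψ, φ, rfl⟩)
    | zero => rw [smul_zero]; exact NG.zero_mem
    | add y z _ _ hy hz => rw [smul_add]; exact NG.add_mem hy hz
    | smul r y _ hy => rw [smul_comm]; exact NG.smul_mem _ hy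
  · intro M hM hM2 f hfM hf q hqp hq
    have hMG : ∀ y ∈ M, y ∈ Submodule.span R (Gn ϖ m D' x') := by
      intro y hy
      obtain ⟨_, s, hs, hsy⟩ := (hPmem y).1 (hM hy)
      have h3 : s • y ∈ Submodule.span R (Gn ϖ m D' x') := Submodule.span_subset_span O R _ hsy
      obtain ⟨t, ht⟩ := (IsLocalization.map_units R (⟨s, hs⟩ : 𝔭.primeCompl)).exists_left_inv
      have h4 : y = t • (s • y) := by
        rw [← IsScalarTower.algebraMap_smul R s y, smul_smul]
        change y = (t * algebraMap O R s) • y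
        rw [ht, one_smul]
      rw [h4]
      exact Submodule.smul_mem _ _ h3
    have hGM : ∀ y ∈ Submodule.span R (Gn ϖ m D' x'), ∃ s, s ∉ 𝔭 ∧ s • y ∈ M := by
      intro y hy
      obtain ⟨s, hs, hsy⟩ := clear_denom 𝔭 (Gn ϖ m D' x') y hy
      have h3 : s • y ∈ P := ⟨hGnN hsy, 1, h1𝔭, by rw [one_smul]; exact hsy⟩
      obtain ⟨t, ht, hty⟩ := hM2 _ h3
      refine ⟨t * s, hmul t s ht hs, ?_⟩
      rw [mul_smul]
      exact hty
    obtain ⟨𝒪, hloc, hR, hRU, hloc2, hG, hreg⟩ :=
      transfer (R := R) 𝔭 M (Gn ϖ m D' x') hMG hGM f q hq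
    apply hreg
    refine regular_node 𝒪 hloc hR hRU hinjF ϖ hπ G hG0 d hGd hoff G' hGd' b hb k hk a H hdet hnode
      x' y c₀ hc₀ hy0 hy hrel hrel' ?_ D' hD'1 f hf (hMG f hfM) hG hloc2
    intro z hz s hs
    choose cz hcz hxz using hz
    have hxz' : ∀ i, ∃ r : Fin (n + 2) → R,
        algebraMap R F (cz i) * x' i = ∑ j, algebraMap R F (r j) * z j := by
      intro i
      obtain ⟨r, hr⟩ := (Submodule.mem_span_range_iff_exists_fun R).1 (hxz i)
      refine ⟨r, ?_⟩
      rw [← hr]
      exact Finset.sum_congr rfl fun j _ => Algebra.smul_def _ _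
    choose rz hrz using hxz'
    obtain ⟨j₀, hj₀⟩ := hind_of (K := K) (ι := Fin (n + 2)) (by simp) x hx0 hgen c htb z
      (fun i j => ∑ l, u i l * (algebraMap R K (cz l))⁻¹ * algebraMap R K (rz l j)) (by
        intro i
        rw [hu]
        have h5 : ∀ l, x' l = ∑ j, algebraMap K F ((algebraMap R K (cz l))⁻¹ *
            algebraMap R K (rz l j)) * z j := by
          intro l
          have h6 : algebraMap R F (cz l) ≠ 0 := by
            rw [Ne, map_eq_zero_iff _ hinjF]
            exact hcz l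
          have h7 : x' l = (algebraMap R F (cz l))⁻¹ * (algebraMap R F (cz l) * x' l) := by
            field_simp
          rw [h7, hrz, Finset.mul_sum]
          refine Finset.sum_congr rfl fun j _ => ?_
          rw [map_mul, map_inv₀, ← IsScalarTower.algebraMap_apply,
            ← IsScalarTower.algebraMap_apply, mul_assoc]
        calc ∑ l, algebraMap K F (u i l) * x' l =
            ∑ l, ∑ j, algebraMap K F (u i l * (algebraMap R K (cz l))⁻¹ *
              algebraMap R K (rz l j)) * z j := by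
              refine Finset.sum_congr rfl fun l _ => ?_
              rw [h5 l, Finset.mul_sum]
              refine Finset.sum_congr rfl fun j _ => ?_
              simp only [map_mul]
              ring
          _ = _ := by
              rw [Finset.sum_comm]
              refine Finset.sum_congr rfl fun j _ => ?_
              rw [map_sum, Finset.sum_mul]) s hs
    exact ⟨j₀, hj₀.restrictScalars hinj⟩

end

end Pool.Agent.V8H73.ND
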