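import Pool.Agent.V8H73.ND.One

/-! The local rings of the blow-up of a hypersurface at an ordinary double point. -/

set_option autoImplicit false
set_option linter.unusedSectionVars false
set_option linter.unusedVariables false

namespace Pool.Agent.V8H73.ND

open MvPolynomial Pool.Agent.H918R2.Quad Pool.Agent.TH214.RM

section gen

variable {R F : Type} [CommRing R] [Field F] [Algebra R F]

theorem frac_adj' (𝒪 : Subring F) (hloc : IsLoc 𝒪) (hR : ∀ r : R, algebraMap R F r ∈ 𝒪)
    (G : Set F) (f : F) (hfG : f ∈ Submodule.span R G)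
    (hloc2 : IsLocOf 𝒪 (chart R (Submodule.span R G) f))
    (S : Subalgebra R F) (hS : ∀ u ∈ S, u ∈ 𝒪) (h : F) (hh0 : h ≠ 0)
    (hgen : ∀ g ∈ G, ∃ u ∈ S, g = h * u) (hU : U 𝒪 (f / h)) :
    ∀ x ∈ 𝒪, ∃ c ∈ S, ∃ d ∈ S, d ≠ 0 ∧ d⁻¹ ∈ 𝒪 ∧ x = c / d := by
  have h2 := frac_of_chart (R := R) (𝒪 := 𝒪) S.val (fun w => hS w w.2) G f h hh0 (by
    intro g hg
    obtain ⟨u, hu, hgu⟩ := hgen g hg
    exact ⟨⟨u, hu⟩, hgu⟩) hfG hU hloc2
  intro x hx
  obtain ⟨a, b, h3, h4, h5⟩ := h2 x hx
  exact ⟨a, a.2, b, b.2, h3, h4, h5⟩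

theorem frac_adj (𝒪 : Subring F) (hloc : IsLoc 𝒪) (hR : ∀ r : R, algebraMap R F r ∈ 𝒪)
    (G : Set F) (f : F) (hf : f ≠ 0) (hfG : f ∈ Submodule.span R G)
    (hG : ∀ g ∈ G, g / f ∈ 𝒪) (hloc2 : IsLocOf 𝒪 (chart R (Submodule.span R G) f))
    (S : Subalgebra R F) (hS : ∀ u ∈ S, u ∈ 𝒪) (h : F) (hh : h ∈ G) (hh0 : h ≠ 0)
    (hgen : ∀ g ∈ G, ∃ u ∈ S, g = h * u) :
    ∀ x ∈ 𝒪, ∃ c ∈ S, ∃ d ∈ S, d ≠ 0 ∧ d⁻¹ ∈ 𝒪 ∧ x = c / d := by
  have hspan : ∀ y ∈ Submodule.span R G, ∃ u ∈ S, y = h * u := by
    intro y hy
    induction hy using Submodule.span_induction with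
    | mem x hx => exact hgen x hx
    | zero => exact ⟨0, S.zero_mem, by simp⟩
    | add x y _ _ hx hy =>
      obtain ⟨u, hu, rfl⟩ := hx
      obtain ⟨v, hv, rfl⟩ := hy
      exact ⟨u + v, S.add_mem hu hv, by ring⟩
    | smul r x _ hx =>
      obtain ⟨u, hu, rfl⟩ := hx
      refine ⟨algebraMap R F r * u, S.mul_mem (S.algebraMap_mem r) hu, ?_⟩
      rw [Algebra.smul_def]
      ring
  have hU : U 𝒪 (f / h) := by
    obtain ⟨u, hu, hfu⟩ := hspan f hfG
    refine ⟨div_ne_zero hf hh0, ?_, ?_⟩
    · have h1 : f / h = u := by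
        rw [hfu]
        field_simp
      rw [h1]
      exact hS u hu
    · rw [inv_div]
      exact hG h hh
  have h2 := frac_of_chart (R := R) (𝒪 := 𝒪) S.val (fun w => hS w w.2) G f h hh0 (by
    intro g hg
    obtain ⟨u, hu, hgu⟩ := hgen g hg
    exact ⟨⟨u, hu⟩, hgu⟩) hfG hU hloc2
  intro x hx
  obtain ⟨a, b, h3, h4, h5⟩ := h2 x hx
  exact ⟨a, a.2, b, b.2, h3, h4, h5⟩

end gen

section node

variable {R F : Type} [CommRing R] [IsDomain R] [IsDiscreteValuationRing R] [Field F]
  [Algebra R F] {n : ℕ}

/-- the equation in the chart `x 0 = 1` -/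
noncomputable def deh0 {R : Type} [CommRing R] {n : ℕ} (G : MvPolynomial (Fin (n + 1)) R) :
    MvPolynomial (Fin n) R :=
  aeval (Fin.cases 1 X) G

theorem aeval_deh0 {R A : Type} [CommRing R] [CommRing A] [Algebra R A]
    (G : MvPolynomial (Fin (n + 1)) R) (t : Fin n → A) :
    aeval t (deh0 G) = aeval (Fin.cases 1 t : Fin (n + 1) → A) G := by
  unfold deh0
  rw [← AlgHom.comp_apply]
  congr 1
  apply MvPolynomial.algHom_ext
  intro i
  rw [AlgHom.comp_apply, aeval_X, aeval_X]
  refine Fin.cases ?_ (fun j => ?_) i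
  · simp
  · simp

/-- the generators of the factors of the blown-up ideal -/
def yy (π : R) {n m : ℕ} (x : Fin (n + 1) → F) (i : Fin m) (j : Fin (n + 1)) : F :=
  if j = 0 then algebraMap R F (π ^ ((i : ℕ) + 1)) * x 0 else x j

/-- a generator of the module of the blow-up -/
def gval (π : R) {n m D : ℕ} (x : Fin (n + 1) → F) (ψ : Fin m → Fin (n + 1))
    (φ : Fin D → Fin (n + 1)) : F :=
  (∏ i, yy π x i (ψ i)) * ∏ l, x (φ l)

/-- the generators of the module of the blow-up -/
def Gn (π : R) {n : ℕ} (m D : ℕ) (x : Fin (n + 1) → F) : Set F :=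
  {g | ∃ (ψ : Fin m → Fin (n + 1)) (φ : Fin D → Fin (n + 1)), g = gval π x ψ φ}

/-- The equation `G` is regular over the maximal ideal of `R`, except possibly at the point
`(1 : 0 : ... : 0)` of the special fibre. -/
def RegOff {R : Type} [CommRing R] {n : ℕ} (G : MvPolynomial (Fin (n + 1)) R) : Prop :=
  ∀ (s : Fin (n + 1)) (Q : Ideal (MvPolynomial {j : Fin (n + 1) // j ≠ s} R)), Q.IsPrime →
    deh s G ∈ Q → (∀ r : R, C r ∈ Q ↔ ¬ IsUnit r) →
    (∃ j, pderiv j (deh s G) ∉ Q) ∨ (∀ h, h ∉ Q → h * deh s G ∉ Q ^ 2) ∨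
      (s = 0 ∧ ∀ j, X j ∈ Q)

theorem regular_node (𝒪 : Subring F) (hloc : IsLoc 𝒪)
    (hR : ∀ r : R, algebraMap R F r ∈ 𝒪) (hRU : ∀ r : R, U 𝒪 (algebraMap R F r) → IsUnit r)
    (hinj : Function.Injective (algebraMap R F)) (π : R) (hπ : Irreducible π)
    (G : MvPolynomial (Fin (n + 1)) R) (hG0 : G ≠ 0) (d : ℕ) (hGd : G.IsHomogeneous d)
    (hoff : RegOff G) (G' : MvPolynomial (Fin (n + 1)) R) (hGd' : G'.IsHomogeneous d)
    (b : R) (hb : IsUnit b) (k : ℕ) (hk : 1 ≤ k) (a : Fin n → R)
    (H : Fin n → Fin n → MvPolynomial (Fin n) R)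
    (hdet : IsUnit (Matrix.of fun s r => coeff 0 (H s r) + coeff 0 (H r s)).det)
    (hnode : deh0 G' = nodeEq π b k a H)
    (x y : Fin (n + 1) → F) (c₀ : Fin n → R) (hc₀ : ∀ j, π ∣ c₀ j) (hy0 : y 0 = x 0)
    (hy : ∀ j, y j.succ = x j.succ + algebraMap R F (c₀ j) * x 0)
    (hrel : aeval y G = 0) (hrel' : aeval x G' = 0)
    (hind : ∀ z : Fin (n + 1) → F,
      (∀ i, ∃ c : R, c ≠ 0 ∧ algebraMap R F c * x i ∈ Submodule.span R (Set.range z)) →
      ∀ s, z s ≠ 0 →
      ∃ j₀ : {i : Fin (n + 1) // i ≠ s},
      AlgebraicIndependent R (fun i : {i : {i : Fin (n + 1) // i ≠ s} // i ≠ j₀} => z i / z s))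
    (D : ℕ) (hD : 1 ≤ D) (f : F) (hf : f ≠ 0)
    (hfG : f ∈ Submodule.span R (Gn π (k / 2) D x))
    (hG : ∀ h ∈ Gn π (k / 2) D x, h / f ∈ 𝒪)
    (hloc2 : IsLocOf 𝒪 (chart R (Submodule.span R (Gn π (k / 2) D x)) f)) :
    IsRegularLocalRing 𝒪 := by
  classical
  set m := k / 2 with hm
  have hk1 : k = 2 * m ∨ k = 2 * m + 1 := by omega
  have hπF : algebraMap R F π ≠ 0 := by
    rw [Ne, map_eq_zero_iff _ hinj]
    exact hπ.ne_zero
  have hπ𝒪 : ¬ U 𝒪 (algebraMap R F π) := fun h => hπ.not_isUnit (hRU _ h)
  have hunit : ∀ r : R, IsUnit r → U 𝒪 (algebraMap R F r) := by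
    rintro _ ⟨r, rfl⟩
    refine ⟨?_, hR _, ?_⟩
    · exact (r.isUnit.map (algebraMap R F)).ne_zero
    · have h5 : (algebraMap R F (r : R))⁻¹ = algebraMap R F ((r⁻¹ : Rˣ) : R) := by
        apply inv_eq_of_mul_eq_one_right
        rw [← map_mul]
        simp
      rw [h5]
      exact hR _
  obtain ⟨g, ⟨ψ, φ, rfl⟩, hU⟩ := exists_U_gen hloc hR _ f hf hG hfG
  have hg0 : gval π x ψ φ ≠ 0 := by
    intro h
    rw [h, zero_div] at hU
    exact not_U_zero hU
  have hquo : ∀ (ψ' : Fin m → Fin (n + 1)) (φ' : Fin D → Fin (n + 1)),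
      gval π x ψ' φ' / gval π x ψ φ ∈ 𝒪 := by
    intro ψ' φ'
    have h1 : gval π x ψ' φ' / gval π x ψ φ =
        (gval π x ψ' φ' / f) * (gval π x ψ φ / f)⁻¹ := by
      field_simp
    rw [h1]
    exact 𝒪.mul_mem (hG _ ⟨ψ', φ', rfl⟩) hU.2.2
  have hyne : ∀ i, yy π x i (ψ i) ≠ 0 := by
    intro i h
    apply hg0
    unfold gval
    rw [Finset.prod_eq_zero (Finset.mem_univ i) h, zero_mul]
  have hxne : ∀ l, x (φ l) ≠ 0 := by
    intro i h
    apply hg0
    unfold gval
    rw [Finset.prod_eq_zero (Finset.mem_univ i) h, mul_zero]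
  have hclaim1 : ∀ i j, yy π x i j / yy π x i (ψ i) ∈ 𝒪 := by
    intro i j
    have h1 := hquo (Function.update ψ i j) φ
    have h2 : (fun i' => yy π x i' (Function.update ψ i j i')) =
        Function.update (fun i' => yy π x i' (ψ i')) i (yy π x i j) := by
      funext i'
      by_cases h : i' = i
      · subst h
        simp
      · rw [Function.update_of_ne h, Function.update_of_ne h]
    have h3 : gval π x (Function.update ψ i j) φ / gval π x ψ φ =
        yy π x i j / yy π x i (ψ i) := by
      unfold gval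
      rw [h2, Finset.prod_update_of_mem (Finset.mem_univ i),
        ← Finset.mul_prod_erase Finset.univ (fun i' => yy π x i' (ψ i')) (Finset.mem_univ i)]
      have h4 : ∏ i' ∈ Finset.univ \ {i}, yy π x i' (ψ i') =
          ∏ i' ∈ Finset.univ.erase i, yy π x i' (ψ i') := by
        rw [Finset.sdiff_singleton_eq_erase]
      rw [h4]
      have h5 : ∏ i' ∈ Finset.univ.erase i, yy π x i' (ψ i') ≠ 0 :=
        Finset.prod_ne_zero_iff.2 fun i' _ => hyne i'
      have h6 : ∏ l, x (φ l) ≠ 0 := Finset.prod_ne_zero_iff.2 fun l _ => hxne l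
      have h7 := hyne i
      field_simp
    rw [← h3]
    exact h1
  have hclaim2 : ∀ l j, x j / x (φ l) ∈ 𝒪 := by
    intro l j
    have h1 := hquo ψ (Function.update φ l j)
    have h2 : (fun l' => x (Function.update φ l j l')) =
        Function.update (fun l' => x (φ l')) l (x j) := by
      funext l'
      by_cases h : l' = l
      · subst h
        simp
      · rw [Function.update_of_ne h, Function.update_of_ne h]
    have h3 : gval π x ψ (Function.update φ l j) / gval π x ψ φ = x j / x (φ l) := by
      unfold gval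
      rw [h2, Finset.prod_update_of_mem (Finset.mem_univ l),
        ← Finset.mul_prod_erase Finset.univ (fun l' => x (φ l')) (Finset.mem_univ l)]
      have h4 : ∏ l' ∈ Finset.univ \ {l}, x (φ l') =
          ∏ l' ∈ Finset.univ.erase l, x (φ l') := by
        rw [Finset.sdiff_singleton_eq_erase]
      rw [h4]
      have h5 : ∏ l' ∈ Finset.univ.erase l, x (φ l') ≠ 0 :=
        Finset.prod_ne_zero_iff.2 fun i' _ => hxne i'
      have h6 : ∏ i, yy π x i (ψ i) ≠ 0 := Finset.prod_ne_zero_iff.2 fun l _ => hyne l
      have h7 := hxne l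
      field_simp
    rw [← h3]
    exact h1
  by_cases hA : ∃ s, s ≠ 0 ∧ x s ≠ 0 ∧ ∀ j, x j / x s ∈ 𝒪
  · -- away from the node
    obtain ⟨s, hs0, hxs, hs⟩ := hA
    -- the coordinates `y`
    have hyx : ∀ j, y j / x s ∈ 𝒪 := by
      intro j
      refine Fin.cases ?_ (fun j => ?_) j
      · rw [hy0]
        exact hs 0
      · rw [hy, add_div, mul_div_assoc]
        exact 𝒪.add_mem (hs _) (𝒪.mul_mem (hR _) (hs _))
    have hysx : U 𝒪 (y s / x s) := by
      obtain ⟨s', rfl⟩ : ∃ s' : Fin n, s'.succ = s := ⟨s.pred hs0, Fin.succ_pred _ _⟩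
      obtain ⟨q, hq⟩ := hc₀ s'
      have h1 : y s'.succ / x s'.succ = 1 + algebraMap R F (c₀ s') * (x 0 / x s'.succ) := by
        rw [hy]
        field_simp
      have h2 : ¬ U 𝒪 (-(algebraMap R F (c₀ s') * (x 0 / x s'.succ))) := by
        intro h
        apply hπ𝒪
        have h3 : -(algebraMap R F (c₀ s') * (x 0 / x s'.succ)) =
            algebraMap R F π * (-(algebraMap R F q * (x 0 / x s'.succ))) := by
          rw [hq, map_mul]
          ring
        rw [h3] at h
        exact h.of_mul_left (hR _) (𝒪.neg_mem (𝒪.mul_mem (hR _) (hs 0)))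
      have h4 : U 𝒪 ((1 + algebraMap R F (c₀ s') * (x 0 / x s'.succ)) +
          -(algebraMap R F (c₀ s') * (x 0 / x s'.succ))) := by
        rw [add_neg_cancel_right]
        exact U_one
      have h5 : algebraMap R F (c₀ s') * (x 0 / x s'.succ) ∈ 𝒪 := 𝒪.mul_mem (hR _) (hs 0)
      rw [h1]
      exact (hloc _ _ (𝒪.add_mem 𝒪.one_mem h5) (𝒪.neg_mem h5) h4).resolve_right h2
    have hys : y s ≠ 0 := by
      intro h
      rw [h, zero_div] at hysx
      exact not_U_zero hysx
    have hsy : ∀ j, y j / y s ∈ 𝒪 := by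
      intro j
      have h1 : y j / y s = (y j / x s) * (y s / x s)⁻¹ := by
        field_simp
      rw [h1]
      exact 𝒪.mul_mem (hyx j) hysx.2.2
    set t : Fin (n + 1) → F := fun j => y j / y s with ht
    have hts : t s = 1 := div_self hys
    let S : Subalgebra R F := Algebra.adjoin R (Set.range fun j : {j // j ≠ s} => t j)
    have hS : ∀ u ∈ S, u ∈ 𝒪 := by
      intro u hu
      induction hu using Algebra.adjoin_induction with
      | mem x hx =>
        obtain ⟨j, rfl⟩ := hx
        exact hsy j
      | algebraMap r => exact hR r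
      | add x y _ _ hx hy => exact 𝒪.add_mem hx hy
      | mul x y _ _ hx hy => exact 𝒪.mul_mem hx hy
    have htS : ∀ j, y j / y s ∈ S := by
      intro j
      by_cases hj : j = s
      · rw [hj, div_self hys]
        exact S.one_mem
      · exact Algebra.subset_adjoin ⟨⟨j, hj⟩, rfl⟩
    have hxS' : ∀ j, x j / y s ∈ S := by
      intro j
      refine Fin.cases ?_ (fun j => ?_) j
      · rw [← hy0]
        exact htS 0
      · have h1 : x j.succ / y s = y j.succ / y s - algebraMap R F (c₀ j) * (y 0 / y s) := by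
          rw [hy, hy0]
          field_simp
          ring
        rw [h1]
        exact S.sub_mem (htS _) (S.mul_mem (S.algebraMap_mem _) (htS 0))
    have hyS : ∀ (i : Fin m) j, yy π x i j / y s ∈ S := by
      intro i j
      unfold yy
      split_ifs with h
      · rw [mul_div_assoc]
        exact S.mul_mem (S.algebraMap_mem _) (hxS' 0)
      · exact hxS' j
    have hyy : ∀ i : Fin m, yy π x i s = x s := by
      intro i
      unfold yy
      rw [if_neg hs0]
    have hUf : U 𝒪 (f / (y s ^ m * y s ^ D)) := by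
      have h1 := hG _ ⟨(fun _ : Fin m => s), (fun _ : Fin D => s), rfl⟩
      have h2 : gval π x (fun _ : Fin m => s) (fun _ : Fin D => s) = x s ^ m * x s ^ D := by
        unfold gval
        simp only [hyy, Finset.prod_const, Finset.card_univ, Fintype.card_fin]
      rw [h2] at h1
      refine ⟨div_ne_zero hf (mul_ne_zero (pow_ne_zero _ hys) (pow_ne_zero _ hys)), ?_, ?_⟩
      · have hspan : ∀ g ∈ Submodule.span R (Gn π m D x), g / (y s ^ m * y s ^ D) ∈ 𝒪 := by
          apply mem_of_span hR
          rintro _ ⟨ψ', φ', rfl⟩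
          have h3 : gval π x ψ' φ' / (y s ^ m * y s ^ D) =
              (∏ i, yy π x i (ψ' i) / y s) * ∏ l, x (φ' l) / y s := by
            unfold gval
            simp only [Finset.prod_div_distrib, Finset.prod_const, Finset.card_univ,
              Fintype.card_fin]
            field_simp
          rw [h3]
          exact 𝒪.mul_mem (𝒪.prod_mem fun i _ => hS _ (hyS i _))
            (𝒪.prod_mem fun l _ => hS _ (hxS' _))
        exact hspan f hfG
      · have h3 : (f / (y s ^ m * y s ^ D))⁻¹ =
            (x s ^ m * x s ^ D / f) * ((y s / x s) ^ m * (y s / x s) ^ D) := by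
          rw [div_pow, div_pow]
          field_simp
        rw [h3]
        exact 𝒪.mul_mem h1 (𝒪.mul_mem (𝒪.pow_mem hysx.2.1 _) (𝒪.pow_mem hysx.2.1 _))
    have hfrac := frac_adj' 𝒪 hloc hR _ f hfG hloc2 S hS (y s ^ m * y s ^ D)
      (mul_ne_zero (pow_ne_zero _ hys) (pow_ne_zero _ hys)) (by
        rintro _ ⟨ψ', φ', rfl⟩
        refine ⟨(∏ i, yy π x i (ψ' i) / y s) * ∏ l, x (φ' l) / y s,
          S.mul_mem (S.prod_mem fun i _ => hyS i _) (S.prod_mem fun l _ => hxS' _), ?_⟩
        unfold gval
        simp only [Finset.prod_div_distrib, Finset.prod_const, Finset.card_univ,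
          Fintype.card_fin]
        field_simp) hUf
    let e : MvPolynomial {j : Fin (n + 1) // j ≠ s} R →ₐ[R] F :=
      aeval (fun j : {j : Fin (n + 1) // j ≠ s} => t j)
    have heC : ∀ r, e (C r) = algebraMap R F r := fun r => aeval_C _ r
    have heX : ∀ j, e (X j) = t j := fun j => aeval_X _ j
    have he : ∀ w, e w ∈ 𝒪 := by
      intro w
      induction w using MvPolynomial.induction_on with
      | C r => rw [heC]; exact hR r
      | add p q hp hq => rw [map_add]; exact 𝒪.add_mem hp hq
      | mul_X p j hp => rw [map_mul, heX]; exact 𝒪.mul_mem hp (hsy _)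
    have hrange : ∀ w ∈ S, ∃ p, w = e p := by
      intro w hw
      have h1 : w ∈ (aeval (fun j : {j : Fin (n + 1) // j ≠ s} => t j) :
          MvPolynomial {j : Fin (n + 1) // j ≠ s} R →ₐ[R] F).range := by
        rw [← Algebra.adjoin_range_eq_range_aeval]
        exact hw
      obtain ⟨p, hp⟩ := h1
      exact ⟨p, hp.symm⟩
    have hfrac' : ∀ x ∈ 𝒪, ∃ a b, e b ≠ 0 ∧ (e b)⁻¹ ∈ 𝒪 ∧ x = e a / e b := by
      intro x hx
      obtain ⟨c, hc, d, hd, h1, h2, h3⟩ := hfrac x hx
      obtain ⟨p, rfl⟩ := hrange c hc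
      obtain ⟨q, rfl⟩ := hrange d hd
      exact ⟨p, q, h1, h2, h3⟩
    have heE : e (deh s G) = 0 := by
      change aeval _ _ = _
      rw [aeval_deh s t hts G]
      have h1 : t = fun j => y j * (y s)⁻¹ := by
        funext j
        simp only [ht]
        rw [div_eq_mul_inv]
      rw [h1, aeval_scale y _ d G hGd, hrel, zero_mul]
    obtain ⟨j₀, hj₀⟩ := hind y (fun i => ⟨1, one_ne_zero, by
      rw [map_one, one_mul]
      refine Fin.cases ?_ (fun i => ?_) i
      · rw [← hy0]
        exact Submodule.subset_span ⟨0, rfl⟩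
      · have h1 : x i.succ = y i.succ - (c₀ i) • y 0 := by
          rw [hy, hy0, Algebra.smul_def]
          ring
        rw [h1]
        exact Submodule.sub_mem _ (Submodule.subset_span ⟨_, rfl⟩)
          (Submodule.smul_mem _ _ (Submodule.subset_span ⟨0, rfl⟩))⟩) s hys
    refine regular_single 𝒪 hloc e he hfrac' (deh s G) (deh_ne_zero s G hG0 d hGd) heE ?_ j₀ ?_
    · have hmem : ∀ w, w ∈ primeOf hloc (e : MvPolynomial {j : Fin (n + 1) // j ≠ s} R →+* F) he ↔
          ¬ U 𝒪 (e w) := fun w => mem_primeOf hloc _ he w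
      rcases hoff s (primeOf hloc (e : MvPolynomial {j : Fin (n + 1) // j ≠ s} R →+* F) he)
        (primeOf_isPrime hloc _ he) (by
          rw [hmem, heE]
          exact not_U_zero) (by
          intro r
          rw [hmem, heC]
          exact not_congr ⟨hRU r, hunit r⟩) with ⟨j, hj⟩ | h | ⟨h, _⟩
      · left
        refine ⟨j, ?_⟩
        by_contra hcon
        exact hj ((hmem _).2 hcon)
      · right
        intro h' hh'
        refine h h' ?_
        rw [hmem]
        exact fun h1 => h1 hh'
      · exact absurd h hs0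
    · convert hj₀ using 2 with j
      exact heX _
  · -- the points over the node
    have hl₀ : φ ⟨0, hD⟩ = 0 := by
      by_contra h
      exact hA ⟨_, h, hxne _, hclaim2 _⟩
    have hx0 : x 0 ≠ 0 := by
      have := hxne ⟨0, hD⟩
      rwa [hl₀] at this
    have hx0' : ∀ j, x j / x 0 ∈ 𝒪 := by
      intro j
      have := hclaim2 ⟨0, hD⟩ j
      rwa [hl₀] at this
    set t : Fin n → F := fun j => x j.succ / x 0 with ht
    have ht𝒪 : ∀ j, t j ∈ 𝒪 := fun j => hx0' _
    have htn : ∀ j, ¬ U 𝒪 (t j) := by
      intro j hj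
      apply hA
      have h1 : x j.succ ≠ 0 := by
        intro h
        have := hj.1
        simp only [ht] at this
        rw [h, zero_div] at this
        exact this rfl
      refine ⟨j.succ, Fin.succ_ne_zero j, h1, fun i => ?_⟩
      have h2 : x i / x j.succ = (x i / x 0) * (t j)⁻¹ := by
        simp only [ht]
        field_simp
      rw [h2]
      exact 𝒪.mul_mem (hx0' i) hj.2.2
    have hrelt : aeval t (nodeEq π b k a H) = 0 := by
      rw [← hnode, aeval_deh0]
      have h1 : (Fin.cases 1 t : Fin (n + 1) → F) = fun j => x j * (x 0)⁻¹ := by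
        funext j
        refine Fin.cases ?_ (fun i => ?_) j
        · rw [mul_inv_cancel₀ hx0]
          rfl
        · rw [← div_eq_mul_inv]
          rfl
      rw [h1, aeval_scale x _ d G' hGd', hrel', zero_mul]
    have hP : nodeEq π b k a H ≠ 0 := nodeEq_ne π b hπ.ne_zero hb.ne_zero k a H
    have hπp : ∀ l, algebraMap R F (π ^ l) ≠ 0 := by
      intro l
      rw [map_pow]
      exact pow_ne_zero _ hπF
    by_cases hall : ∀ j, t j / algebraMap R F (π ^ m) ∈ 𝒪
    · -- the last chart
      set u : Fin n → F := fun j => t j / algebraMap R F (π ^ m) with hu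
      have htu : ∀ j, t j = algebraMap R F (π ^ m) * u j := by
        intro j
        simp only [hu]
        have := hπp m
        field_simp
      let S : Subalgebra R F := Algebra.adjoin R (Set.range u)
      have hS : ∀ u ∈ S, u ∈ 𝒪 := by
        intro u hu
        induction hu using Algebra.adjoin_induction with
        | mem x hx =>
          obtain ⟨j, rfl⟩ := hx
          exact hall j
        | algebraMap r => exact hR r
        | add x y _ _ hx hy => exact 𝒪.add_mem hx hy
        | mul x y _ _ hx hy => exact 𝒪.mul_mem hx hy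
      have huS : ∀ j, u j ∈ S := fun j => Algebra.subset_adjoin ⟨j, rfl⟩
      have hyS : ∀ (i : Fin m) j, yy π x i j / yy π x i 0 ∈ S := by
        intro i j
        have h0 : yy π x i 0 = algebraMap R F (π ^ ((i : ℕ) + 1)) * x 0 := by
          unfold yy
          rw [if_pos rfl]
        have hne := hπp ((i : ℕ) + 1)
        refine Fin.cases ?_ (fun j => ?_) j
        · rw [div_self]
          · exact S.one_mem
          · rw [h0]
            exact mul_ne_zero hne hx0
        · have h1 : yy π x i j.succ = x j.succ := by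
            unfold yy
            rw [if_neg (Fin.succ_ne_zero j)]
          have h2 : x j.succ = algebraMap R F (π ^ m) * u j * x 0 := by
            rw [← htu]
            simp only [ht]
            field_simp
          have h3 : algebraMap R F (π ^ m) =
              algebraMap R F (π ^ (m - ((i : ℕ) + 1))) * algebraMap R F (π ^ ((i : ℕ) + 1)) := by
            rw [← map_mul, ← pow_add]
            congr 2
            have := i.2
            omega
          rw [h0, h1, h2, h3]
          have h4 : algebraMap R F (π ^ (m - ((i : ℕ) + 1))) * algebraMap R F (π ^ ((i : ℕ) + 1)) *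
              u j * x 0 / (algebraMap R F (π ^ ((i : ℕ) + 1)) * x 0) =
              algebraMap R F (π ^ (m - ((i : ℕ) + 1))) * u j := by
            field_simp
          rw [h4]
          exact S.mul_mem (S.algebraMap_mem _) (huS j)
      have hxS : ∀ j, x j / x 0 ∈ S := by
        intro j
        refine Fin.cases ?_ (fun j => ?_) j
        · rw [div_self hx0]
          exact S.one_mem
        · change t j ∈ S
          rw [htu]
          exact S.mul_mem (S.algebraMap_mem _) (huS j)
      have hy0 : ∀ i : Fin m, yy π x i 0 ≠ 0 := by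
        intro i
        unfold yy
        rw [if_pos rfl]
        exact mul_ne_zero (hπp _) hx0
      have hfrac := frac_adj 𝒪 hloc hR _ f hf hfG hG hloc2 S hS
        (gval π x (fun _ : Fin m => 0) (fun _ : Fin D => 0)) ⟨_, _, rfl⟩ (by
          unfold gval
          exact mul_ne_zero (Finset.prod_ne_zero_iff.2 fun i _ => hy0 i)
            (Finset.prod_ne_zero_iff.2 fun i _ => hx0)) (by
          rintro _ ⟨ψ', φ', rfl⟩
          refine ⟨(∏ i, yy π x i (ψ' i) / yy π x i 0) * ∏ l, x (φ' l) / x 0,
            S.mul_mem (S.prod_mem fun i _ => hyS i _) (S.prod_mem fun l _ => hxS _), ?_⟩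
          unfold gval
          have h5 : ∏ i : Fin m, yy π x i 0 ≠ 0 := Finset.prod_ne_zero_iff.2 fun i _ => hy0 i
          have h6 : ∏ _l : Fin D, x 0 ≠ 0 := Finset.prod_ne_zero_iff.2 fun i _ => hx0
          rw [Finset.prod_div_distrib, Finset.prod_div_distrib]
          field_simp)
      obtain ⟨j₀, hj₀⟩ := hind (fun j => Fin.cases (motive := fun _ => F) (x 0)
        (fun i => x i.succ / algebraMap R F (π ^ m)) j) (by
          intro i
          refine ⟨1, one_ne_zero, ?_⟩
          rw [map_one, one_mul]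
          refine Fin.cases ?_ (fun i => ?_) i
          · exact Submodule.subset_span ⟨0, rfl⟩
          · have h1 : x i.succ = (π ^ m) • (x i.succ / algebraMap R F (π ^ m)) := by
              rw [Algebra.smul_def]
              have := hπp m
              field_simp
            rw [h1]
            exact Submodule.smul_mem _ _ (Submodule.subset_span ⟨i.succ, rfl⟩)) 0 (by exact hx0)
      obtain ⟨j₁, hj₁⟩ : ∃ j₁ : Fin n, j₁.succ = (j₀ : Fin (n + 1)) :=
        ⟨(j₀ : Fin (n + 1)).pred j₀.2, Fin.succ_pred _ _⟩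
      refine regular_one 𝒪 hloc hR hinj π hπ hπ𝒪 b hb k m hk1 hk a H hdet t u htu hall htn hrelt
        j₁ ?_ hfrac
      let ι : {j : Fin n // j ≠ j₁} → {i : {i : Fin (n + 1) // i ≠ 0} // i ≠ j₀} := fun j =>
        ⟨⟨(j : Fin n).succ, Fin.succ_ne_zero _⟩, fun h => j.2 (Fin.succ_injective _ (by
          rw [hj₁]
          exact congrArg Subtype.val h))⟩
      have hι : Function.Injective ι := by
        intro i j hij
        apply Subtype.ext
        apply Fin.succ_injective
        exact congrArg (fun z => ((z : {i : {i : Fin (n + 1) // i ≠ 0} // i ≠ j₀}) :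
          Fin (n + 1))) hij
      have h7 := hj₀.comp ι hι
      convert h7 using 1
      funext j
      change u j = (x (j : Fin n).succ / algebraMap R F (π ^ m)) / x 0
      simp only [hu, ht]
      field_simp
    · -- the exceptional charts
      have hex : ∃ l, ¬ ∀ j, t j / algebraMap R F (π ^ l) ∈ 𝒪 := ⟨m, hall⟩
      set l' := Nat.find hex with hl'
      have hl'1 := Nat.find_spec hex
      rw [← hl'] at hl'1
      have hl'm : l' ≤ m := Nat.find_min' hex hall
      have hl'0 : l' ≠ 0 := by
        intro h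
        apply hl'1
        intro j
        rw [h, pow_zero, map_one, div_one]
        exact ht𝒪 j
      obtain ⟨l, hl⟩ := Nat.exists_eq_succ_of_ne_zero hl'0
      have hlt : ∀ j, t j / algebraMap R F (π ^ l) ∈ 𝒪 := by
        by_contra h
        have := Nat.find_min' hex h
        omega
      have hlm : l < m := by omega
      rw [hl] at hl'1
      have hci := hclaim1 ⟨l, hlm⟩
      have hcne := hyne ⟨l, hlm⟩
      set c := ψ ⟨l, hlm⟩ with hc
      have hc0 : c ≠ 0 := by
        intro h0
        apply hl'1
        intro j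
        have h1 := hci j.succ
        rw [h0] at h1
        have h2 : yy π x (⟨l, hlm⟩ : Fin m) j.succ / yy π x (⟨l, hlm⟩ : Fin m) 0 =
            t j / algebraMap R F (π ^ (l.succ)) := by
          unfold yy
          rw [if_neg (Fin.succ_ne_zero j), if_pos rfl]
          simp only [ht, Nat.succ_eq_add_one]
          have := hπp (l + 1)
          field_simp
        rw [← h2]
        exact h1
      obtain ⟨j₁, hj₁⟩ : ∃ j₁ : Fin n, j₁.succ = c := ⟨c.pred hc0, Fin.succ_pred _ _⟩
      have hyc : yy π x (⟨l, hlm⟩ : Fin m) c = x c := by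
        unfold yy
        rw [if_neg hc0]
      rw [hyc] at hcne
      have hxc : x j₁.succ ≠ 0 := by rwa [hj₁]
      set v : Fin n → F := fun j => x j.succ / x j₁.succ with hv
      set z : F := t j₁ / algebraMap R F (π ^ l) with hz
      set w : F := algebraMap R F (π ^ (l + 1)) * x 0 / x j₁.succ with hw
      have hv𝒪 : ∀ j, v j ∈ 𝒪 := by
        intro j
        have h1 := hci j.succ
        rw [hyc, ← hj₁] at h1
        unfold yy at h1
        rwa [if_neg (Fin.succ_ne_zero j)] at h1
      have hw𝒪 : w ∈ 𝒪 := by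
        have h1 := hci 0
        rw [hyc, ← hj₁] at h1
        unfold yy at h1
        rwa [if_pos rfl] at h1
      have hz𝒪 : z ∈ 𝒪 := hlt j₁
      have hπl := hπp l
      have hzw : z * w = algebraMap R F π := by
        simp only [hz, hw, ht]
        rw [pow_succ, map_mul]
        field_simp
      have htv : ∀ j, t j = algebraMap R F (π ^ l) * z * v j := by
        intro j
        simp only [hz, hv, ht]
        field_simp
      have hz0 : z ≠ 0 := by
        intro h
        rw [h, zero_mul] at hzw
        exact hπF hzw.symm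
      have hv1 : v j₁ = 1 := div_self hxc
      let S : Subalgebra R F := Algebra.adjoin R (insert z (insert w (Set.range v)))
      have hzS : z ∈ S := Algebra.subset_adjoin (Or.inl rfl)
      have hwS : w ∈ S := Algebra.subset_adjoin (Or.inr (Or.inl rfl))
      have hvS : ∀ j, v j ∈ S := fun j => Algebra.subset_adjoin (Or.inr (Or.inr ⟨j, rfl⟩))
      have hS : ∀ u ∈ S, u ∈ 𝒪 := by
        intro u hu
        induction hu using Algebra.adjoin_induction with
        | mem x hx =>
          rcases hx with rfl | rfl | ⟨j, rfl⟩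
          · exact hz𝒪
          · exact hw𝒪
          · exact hv𝒪 j
        | algebraMap r => exact hR r
        | add x y _ _ hx hy => exact 𝒪.add_mem hx hy
        | mul x y _ _ hx hy => exact 𝒪.mul_mem hx hy
      let ψ₀ : Fin m → Fin (n + 1) := fun i => if (i : ℕ) < l then 0 else j₁.succ
      have hψ₀ne : ∀ i, yy π x i (ψ₀ i) ≠ 0 := by
        intro i
        simp only [ψ₀]
        split_ifs with h
        · unfold yy
          rw [if_pos rfl]
          exact mul_ne_zero (hπp _) hx0
        · unfold yy
          rw [if_neg (Fin.succ_ne_zero _)]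
          exact hxc
      have hyS : ∀ (i : Fin m) j, yy π x i j / yy π x i (ψ₀ i) ∈ S := by
        intro i j
        have hne := hπp ((i : ℕ) + 1)
        by_cases hi : (i : ℕ) < l
        · have h0 : yy π x i (ψ₀ i) = algebraMap R F (π ^ ((i : ℕ) + 1)) * x 0 := by
            simp only [ψ₀]
            rw [if_pos hi]
            unfold yy
            rw [if_pos rfl]
          refine Fin.cases ?_ (fun j => ?_) j
          · have h1 : yy π x i 0 = algebraMap R F (π ^ ((i : ℕ) + 1)) * x 0 := by
              unfold yy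
              rw [if_pos rfl]
            rw [h0, h1, div_self (mul_ne_zero hne hx0)]
            exact S.one_mem
          · have h1 : yy π x i j.succ = x j.succ := by
              unfold yy
              rw [if_neg (Fin.succ_ne_zero j)]
            have h2 : x j.succ = algebraMap R F (π ^ l) * z * v j * x 0 := by
              rw [← htv]
              simp only [ht]
              field_simp
            have h3 : algebraMap R F (π ^ l) =
                algebraMap R F (π ^ (l - ((i : ℕ) + 1))) * algebraMap R F (π ^ ((i : ℕ) + 1)) := by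
              rw [← map_mul, ← pow_add]
              congr 2
              omega
            rw [h0, h1, h2, h3]
            have h4 : algebraMap R F (π ^ (l - ((i : ℕ) + 1))) *
                algebraMap R F (π ^ ((i : ℕ) + 1)) * z * v j * x 0 /
                (algebraMap R F (π ^ ((i : ℕ) + 1)) * x 0) =
                algebraMap R F (π ^ (l - ((i : ℕ) + 1))) * z * v j := by
              field_simp
            rw [h4]
            exact S.mul_mem (S.mul_mem (S.algebraMap_mem _) hzS) (hvS j)
        · have h0 : yy π x i (ψ₀ i) = x j₁.succ := by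
            simp only [ψ₀]
            rw [if_neg hi]
            unfold yy
            rw [if_neg (Fin.succ_ne_zero _)]
          refine Fin.cases ?_ (fun j => ?_) j
          · have h1 : yy π x i 0 = algebraMap R F (π ^ ((i : ℕ) + 1)) * x 0 := by
              unfold yy
              rw [if_pos rfl]
            have h3 : algebraMap R F (π ^ ((i : ℕ) + 1)) =
                algebraMap R F (π ^ ((i : ℕ) - l)) * algebraMap R F (π ^ (l + 1)) := by
              rw [← map_mul, ← pow_add]
              congr 2
              omega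
            rw [h0, h1, h3]
            have h4 : algebraMap R F (π ^ ((i : ℕ) - l)) * algebraMap R F (π ^ (l + 1)) * x 0 /
                x j₁.succ = algebraMap R F (π ^ ((i : ℕ) - l)) * w := by
              simp only [hw]
              ring
            rw [h4]
            exact S.mul_mem (S.algebraMap_mem _) hwS
          · have h1 : yy π x i j.succ = x j.succ := by
              unfold yy
              rw [if_neg (Fin.succ_ne_zero j)]
            rw [h0, h1]
            exact hvS j
      have hxS : ∀ j, x j / x 0 ∈ S := by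
        intro j
        refine Fin.cases ?_ (fun j => ?_) j
        · rw [div_self hx0]
          exact S.one_mem
        · change t j ∈ S
          rw [htv]
          exact S.mul_mem (S.mul_mem (S.algebraMap_mem _) hzS) (hvS j)
      have hfrac := frac_adj 𝒪 hloc hR _ f hf hfG hG hloc2 S hS
        (gval π x ψ₀ (fun _ : Fin D => 0)) ⟨_, _, rfl⟩ (by
          unfold gval
          exact mul_ne_zero (Finset.prod_ne_zero_iff.2 fun i _ => hψ₀ne i)
            (Finset.prod_ne_zero_iff.2 fun i _ => hx0)) (by
          rintro _ ⟨ψ', φ', rfl⟩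
          refine ⟨(∏ i, yy π x i (ψ' i) / yy π x i (ψ₀ i)) * ∏ l, x (φ' l) / x 0,
            S.mul_mem (S.prod_mem fun i _ => hyS i _) (S.prod_mem fun l _ => hxS _), ?_⟩
          unfold gval
          have h5 : ∏ i : Fin m, yy π x i (ψ₀ i) ≠ 0 :=
            Finset.prod_ne_zero_iff.2 fun i _ => hψ₀ne i
          have h6 : ∏ _l : Fin D, x 0 ≠ 0 := Finset.prod_ne_zero_iff.2 fun i _ => hx0
          rw [Finset.prod_div_distrib, Finset.prod_div_distrib]
          field_simp)
      obtain ⟨j₀, hj₀⟩ := hind x (fun i => ⟨1, one_ne_zero, by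
        rw [map_one, one_mul]
        exact Submodule.subset_span ⟨i, rfl⟩⟩) 0 hx0
      obtain ⟨j₂, hj₂⟩ : ∃ j₂ : Fin n, j₂.succ = (j₀ : Fin (n + 1)) :=
        ⟨(j₀ : Fin (n + 1)).pred j₀.2, Fin.succ_pred _ _⟩
      have hind2 : AlgebraicIndependent R (fun j : {j : Fin n // j ≠ j₂} => t j) := by
        let ι : {j : Fin n // j ≠ j₂} → {i : {i : Fin (n + 1) // i ≠ 0} // i ≠ j₀} := fun j =>
          ⟨⟨(j : Fin n).succ, Fin.succ_ne_zero _⟩, fun h => j.2 (Fin.succ_injective _ (by
            rw [hj₂]
            exact congrArg Subtype.val h))⟩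
        have hι : Function.Injective ι := by
          intro i j hij
          apply Subtype.ext
          apply Fin.succ_injective
          exact congrArg (fun z => ((z : {i : {i : Fin (n + 1) // i ≠ 0} // i ≠ j₀}) :
            Fin (n + 1))) hij
        exact hj₀.comp ι hι
      have hdet' : IsUnit (Matrix.of fun s r => IsLocalRing.residue R (coeff 0 (H s r)) +
          IsLocalRing.residue R (coeff 0 (H r s))).det := by
        have h1 := hdet.map (IsLocalRing.residue R)
        rw [RingHom.map_det] at h1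
        convert h1 using 2
        ext s r
        simp [RingHom.mapMatrix_apply, Matrix.map_apply]
      have htj1 := htn j₁
      rw [htv, hv1, mul_one] at htj1
      by_cases hzU : U 𝒪 z
      · have hl1 : 1 ≤ l := by
          by_contra h
          have h0 : l = 0 := by omega
          rw [h0, pow_zero, map_one, one_mul] at htj1
          exact htj1 hzU
        refine regular_two 𝒪 hloc hR hinj π hπ b k l (by omega) a H hdet' hP j₁ t v z w hzw hv1 htv
          hz0 hz𝒪 hw𝒪 hv𝒪 hrelt j₂ hind2 false ?_ (fun _ => hl1) hfrac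
        simp only [Bool.false_eq_true, if_false]
        intro hwU
        apply hπ𝒪
        rw [← hzw]
        exact hzU.mul hwU
      · refine regular_two 𝒪 hloc hR hinj π hπ b k l (by omega) a H hdet' hP j₁ t v z w hzw hv1 htv
          hz0 hz𝒪 hw𝒪 hv𝒪 hrelt j₂ hind2 true ?_ (fun h => absurd h (by decide)) hfrac
        simp only [if_true]
        exact hzU

end node

end Pool.Agent.V8H73.ND
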