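import Pool.Agent.V8H73.ND.Two

/-! The last chart of the blow-ups of an ordinary double point. -/

set_option autoImplicit false
set_option linter.unusedSectionVars false
set_option linter.unusedVariables false

namespace Pool.Agent.V8H73.ND

open MvPolynomial Pool.Agent.H918R2.Quad

section one

variable {R F : Type} [CommRing R] [IsDomain R] [IsDiscreteValuationRing R] [Field F]
  [Algebra R F] {N : ℕ}

/-- The equation in the last chart. -/
noncomputable def E1 (π b : R) (k m : ℕ) (a : Fin N → R)
    (H : Fin N → Fin N → MvPolynomial (Fin N) R) : MvPolynomial (Fin N) R :=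
  C (π ^ (k - 2 * m) * b) + ∑ s, C (π ^ (k - m) * a s) * X s +
    ∑ s, ∑ r, X s * X r * aeval (fun i => C (π ^ m) * (X i : MvPolynomial (Fin N) R)) (H s r)

theorem ident1 (π b : R) (k m : ℕ) (hkm : 2 * m ≤ k)
    (a : Fin N → R) (H : Fin N → Fin N → MvPolynomial (Fin N) R) (u : Fin N → F) :
    aeval (fun i => algebraMap R F (π ^ m) * u i) (nodeEq π b k a H) =
      (algebraMap R F (π ^ m)) ^ 2 * aeval u (E1 π b k m a H) := by
  obtain ⟨r, rfl⟩ := Nat.exists_eq_add_of_le hkm
  have e1 : 2 * m + r - 2 * m = r := by omega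
  have e2 : 2 * m + r - m = m + r := by omega
  unfold nodeEq E1
  rw [e1, e2]
  simp only [map_add, map_sum, map_mul, aeval_X, aeval_C]
  rw [mul_add, mul_add, Finset.mul_sum, Finset.mul_sum]
  congr 1
  · congr 1
    · rw [← mul_assoc]
      congr 1
      rw [← map_pow, ← map_mul]
      congr 1
      ring
    · refine Finset.sum_congr rfl fun s _ => ?_
      have h1 : algebraMap R F (π ^ (2 * m + r)) * algebraMap R F (π ^ m) =
          algebraMap R F (π ^ m) ^ 2 * algebraMap R F (π ^ (m + r)) := by
        rw [← map_pow, ← map_mul, ← map_mul]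
        congr 1
        ring
      linear_combination (algebraMap R F (a s) * u s) * h1
  · refine Finset.sum_congr rfl fun s _ => ?_
    rw [Finset.mul_sum]
    refine Finset.sum_congr rfl fun r _ => ?_
    have h1 : aeval u (aeval (fun i => C (π ^ m) * (X i : MvPolynomial (Fin N) R)) (H s r)) =
        aeval (fun i => algebraMap R F (π ^ m) * u i) (H s r) := by
      rw [← AlgHom.comp_apply]
      congr 1
      apply MvPolynomial.algHom_ext
      intro i
      rw [AlgHom.comp_apply, aeval_X, aeval_X, map_mul, aeval_X, aeval_C]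
    rw [h1]
    ring

theorem aeval_mod (π : R) (m : ℕ) (hm : 1 ≤ m) (P : MvPolynomial (Fin N) R) :
    ∃ P', aeval (fun i => C (π ^ m) * (X i : MvPolynomial (Fin N) R)) P =
      C (coeff 0 P) + C π * P' := by
  induction P using MvPolynomial.induction_on with
  | C r => exact ⟨0, by simp [algebraMap_eq]⟩
  | add p q hp hq =>
    obtain ⟨p', hp'⟩ := hp
    obtain ⟨q', hq'⟩ := hq
    refine ⟨p' + q', ?_⟩
    rw [map_add, hp', hq', coeff_add, C_add]
    ring
  | mul_X p i hp =>
    obtain ⟨p', hp'⟩ := hp
    refine ⟨(C (coeff 0 p) + C π * p') * (C (π ^ (m - 1)) * X i), ?_⟩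
    have h1 : (C (π ^ m) : MvPolynomial (Fin N) R) = C π * C (π ^ (m - 1)) := by
      rw [← C_mul, ← pow_succ', Nat.sub_add_cancel hm]
    have h2 : coeff 0 (p * X i) = 0 := by
      rw [← constantCoeff_eq, map_mul, constantCoeff_X, mul_zero]
    rw [map_mul, aeval_X, hp', h1, h2, C_0]
    ring

theorem coeff_zero_E1 (π b : R) (k m : ℕ) (a : Fin N → R)
    (H : Fin N → Fin N → MvPolynomial (Fin N) R) :
    constantCoeff (E1 π b k m a H) = π ^ (k - 2 * m) * b := by
  unfold E1
  simp [map_add, map_sum]

theorem coeff_zero_nodeEq (π b : R) (k : ℕ) (a : Fin N → R)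
    (H : Fin N → Fin N → MvPolynomial (Fin N) R) :
    constantCoeff (nodeEq π b k a H) = π ^ k * b := by
  unfold nodeEq
  simp [map_add, map_sum]

theorem nodeEq_ne (π b : R) (hπ : π ≠ 0) (hb : b ≠ 0) (k : ℕ) (a : Fin N → R)
    (H : Fin N → Fin N → MvPolynomial (Fin N) R) : nodeEq π b k a H ≠ 0 := by
  intro h
  have := coeff_zero_nodeEq π b k a H
  rw [h, map_zero] at this
  exact mul_ne_zero (pow_ne_zero _ hπ) hb this.symm

/-- Regularity in the last chart. -/
theorem regular_one (𝒪 : Subring F) (hloc : IsLoc 𝒪)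
    (hR : ∀ r : R, algebraMap R F r ∈ 𝒪) (hinj : Function.Injective (algebraMap R F))
    (π : R) (hπ : Irreducible π) (hπ𝒪 : ¬ U 𝒪 (algebraMap R F π))
    (b : R) (hb : IsUnit b) (k m : ℕ) (hkm : k = 2 * m ∨ k = 2 * m + 1) (hk1 : 1 ≤ k)
    (a : Fin N → R) (H : Fin N → Fin N → MvPolynomial (Fin N) R)
    (hdet : IsUnit (Matrix.of fun s r => coeff 0 (H s r) + coeff 0 (H r s)).det)
    (t u : Fin N → F) (ht : ∀ i, t i = algebraMap R F (π ^ m) * u i) (hu : ∀ i, u i ∈ 𝒪)
    (htn : ∀ i, ¬ U 𝒪 (t i)) (hrel : aeval t (nodeEq π b k a H) = 0) (j₀ : Fin N)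
    (hj₀ : AlgebraicIndependent R (fun j : {j : Fin N // j ≠ j₀} => u j))
    (hfrac : ∀ x ∈ 𝒪, ∃ c ∈ Algebra.adjoin R (Set.range u),
      ∃ d ∈ Algebra.adjoin R (Set.range u),
      d ≠ 0 ∧ d⁻¹ ∈ 𝒪 ∧ x = c / d) : IsRegularLocalRing 𝒪 := by
  classical
  let e : MvPolynomial (Fin N) R →ₐ[R] F := aeval u
  have heX : ∀ i, e (X i) = u i := fun i => aeval_X _ _
  have heC : ∀ r, e (C r) = algebraMap R F r := fun r => aeval_C _ r
  have he : ∀ w, e w ∈ 𝒪 := by
    intro w
    induction w using MvPolynomial.induction_on with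
    | C r => rw [heC]; exact hR r
    | add p q hp hq => rw [map_add]; exact 𝒪.add_mem hp hq
    | mul_X p j hp => rw [map_mul, heX]; exact 𝒪.mul_mem hp (hu _)
  have hrange : ∀ w ∈ Algebra.adjoin R (Set.range u), ∃ p, w = e p := by
    intro w hw
    rw [Algebra.adjoin_range_eq_range_aeval] at hw
    obtain ⟨p, hp⟩ := hw
    exact ⟨p, hp.symm⟩
  have hfrac' : ∀ x ∈ 𝒪, ∃ a b, e b ≠ 0 ∧ (e b)⁻¹ ∈ 𝒪 ∧ x = e a / e b := by
    intro x hx
    obtain ⟨c, hc, d, hd, h1, h2, h3⟩ := hfrac x hx
    obtain ⟨p, rfl⟩ := hrange c hc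
    obtain ⟨q, rfl⟩ := hrange d hd
    exact ⟨p, q, h1, h2, h3⟩
  have hπm : algebraMap R F (π ^ m) ≠ 0 := by
    rw [Ne, map_eq_zero_iff _ hinj]
    exact pow_ne_zero _ hπ.ne_zero
  have hπC : ∀ r : R, π ∣ r → ¬ U 𝒪 (algebraMap R F r) := by
    rintro _ ⟨r, rfl⟩ h
    rw [map_mul] at h
    exact hπ𝒪 (h.of_mul_left (hR _) (hR _))
  have hunit : ∀ r : R, IsUnit r → U 𝒪 (algebraMap R F r) := by
    rintro _ ⟨r, rfl⟩
    refine ⟨?_, hR _, ?_⟩
    · exact (r.isUnit.map (algebraMap R F)).ne_zero
    · have h5 : (algebraMap R F (r : R))⁻¹ = algebraMap R F ((r⁻¹ : Rˣ) : R) := by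
        apply inv_eq_of_mul_eq_one_right
        rw [← map_mul]
        simp
      rw [h5]
      exact hR _
  have hdvd : ∀ r : R, ¬ IsUnit r → π ∣ r := by
    intro r hr
    have h4 : r ∈ IsLocalRing.maximalIdeal R := hr
    rwa [hπ.maximalIdeal_eq, Ideal.mem_span_singleton] at h4
  set E := E1 π b k m a H with hE
  have hE0 : E ≠ 0 := by
    intro h
    have h1 := coeff_zero_E1 π b k m a H
    rw [← hE, h, map_zero] at h1
    exact mul_ne_zero (pow_ne_zero _ hπ.ne_zero) hb.ne_zero h1.symm
  have heE : e E = 0 := by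
    have h1 := ident1 π b k m (by omega) a H u
    have h2 : (fun i => algebraMap R F (π ^ m) * u i) = t := by
      funext i
      exact (ht i).symm
    rw [h2, hrel] at h1
    exact (mul_eq_zero.1 h1.symm).resolve_left (pow_ne_zero 2 hπm)
  refine regular_single 𝒪 hloc e he hfrac' E hE0 heE ?_ j₀ ?_
  swap
  · convert hj₀ using 2 with j
    exact heX _
  set Q := primeOf hloc (e : MvPolynomial (Fin N) R →+* F) he with hQ
  have hmem : ∀ w, w ∈ Q ↔ ¬ U 𝒪 (e w) := fun w => mem_primeOf hloc _ he w
  by_cases hc : ∃ j, U 𝒪 (e (pderiv j E))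
  · exact Or.inl hc
  push Not at hc
  have hX : ∀ s, X s ∈ Q := by
    rcases Nat.eq_zero_or_pos m with rfl | hm
    · intro s
      rw [hmem, heX]
      have := htn s
      rw [ht, pow_zero, map_one, one_mul] at this
      exact this
    · -- the reduction of the equation
      choose P' hP' using fun s r => aeval_mod π m hm (H s r)
      have hEd : E = C (π ^ (k - 2 * m) * b) + (∑ s, ∑ r, C (coeff 0 (H s r)) * X s * X r) +
          C π * (∑ s, C (π ^ (k - m - 1) * a s) * X s + ∑ s, ∑ r, X s * X r * P' s r) := by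
        rw [hE, E1, mul_add, Finset.mul_sum, Finset.mul_sum]
        have h1 : ∀ s, (C (π ^ (k - m) * a s) * X s : MvPolynomial (Fin N) R) =
            C π * (C (π ^ (k - m - 1) * a s) * X s) := by
          intro s
          rw [← mul_assoc, ← C_mul, ← mul_assoc, ← pow_succ']
          congr 4
          omega
        have h2 : ∀ s, ∑ r, X s * X r *
            aeval (fun i => C (π ^ m) * (X i : MvPolynomial (Fin N) R)) (H s r) =
            (∑ r, C (coeff 0 (H s r)) * X s * X r) + C π * ∑ r, X s * X r * P' s r := by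
          intro s
          rw [Finset.mul_sum, ← Finset.sum_add_distrib]
          refine Finset.sum_congr rfl fun r _ => ?_
          rw [hP']
          ring
        simp only [h1, h2, Finset.sum_add_distrib]
        ring
      have hder : ∀ j, ∑ r, C (coeff 0 (H j r) + coeff 0 (H r j)) * X r ∈ Q := by
        intro j
        have h3 : pderiv j E = (∑ r, C (coeff 0 (H j r) + coeff 0 (H r j)) * X r) +
            C π * pderiv j (∑ s, C (π ^ (k - m - 1) * a s) * X s + ∑ s, ∑ r, X s * X r * P' s r) := by
          rw [hEd, map_add, map_add, pderiv_C_mul, pderiv_C, zero_add, map_sum]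
          congr 1
          have h4 : ∀ s, pderiv j (∑ r, C (coeff 0 (H s r)) * X s * X r) =
              ∑ r, ((if s = j then C (coeff 0 (H s r)) * X r else 0) +
              (if r = j then C (coeff 0 (H s r)) * X s else 0)) := by
            intro s
            rw [map_sum]
            refine Finset.sum_congr rfl fun r _ => ?_
            rw [pderiv_mul, pderiv_C_mul, pderiv_X, pderiv_X]
            simp only [Pi.single_apply]
            split_ifs with h5 h6 h6 <;> simp_all
          simp only [h4, Finset.sum_add_distrib]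
          have h5 : ∑ s, ∑ r, (if s = j then C (coeff 0 (H s r)) * (X r : MvPolynomial (Fin N) R)
              else 0) = ∑ r, C (coeff 0 (H j r)) * X r := by
            rw [Finset.sum_comm]
            refine Finset.sum_congr rfl fun r _ => ?_
            rw [Finset.sum_ite_eq' Finset.univ j (fun s => C (coeff 0 (H s r)) * X r),
              if_pos (Finset.mem_univ _)]
          have h6 : ∑ s, ∑ r, (if r = j then C (coeff 0 (H s r)) * (X s : MvPolynomial (Fin N) R)
              else 0) = ∑ r, C (coeff 0 (H r j)) * X r := by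
            refine Finset.sum_congr rfl fun s _ => ?_
            rw [Finset.sum_ite_eq' Finset.univ j (fun r => C (coeff 0 (H s r)) * X s),
              if_pos (Finset.mem_univ _)]
          rw [h5, h6, ← Finset.sum_add_distrib]
          refine Finset.sum_congr rfl fun r _ => ?_
          rw [C_add]
          ring
        have h7 : pderiv j E ∈ Q := (hmem _).2 (hc j)
        have h8 : C π * pderiv j (∑ s, C (π ^ (k - m - 1) * a s) * X s +
            ∑ s, ∑ r, X s * X r * P' s r) ∈ Q := by
          refine Q.mul_mem_right _ ?_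
          rw [hmem, heC]
          exact hπ𝒪
        have h9 := Q.sub_mem h7 h8
        rwa [h3, add_sub_cancel_right] at h9
      intro j
      set M : Matrix (Fin N) (Fin N) R := Matrix.of fun s r => coeff 0 (H s r) + coeff 0 (H r s)
        with hM
      have hinv : M⁻¹ * M = 1 := Matrix.nonsing_inv_mul M hdet
      have h7 : (X j : MvPolynomial (Fin N) R) =
          ∑ s, C (M⁻¹ j s) * ∑ r, C (coeff 0 (H s r) + coeff 0 (H r s)) * X r := by
        have h8 : ∑ s, C (M⁻¹ j s) * ∑ r, C (coeff 0 (H s r) + coeff 0 (H r s)) * X r =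
            ∑ r, C ((M⁻¹ * M) j r) * (X r : MvPolynomial (Fin N) R) := by
          simp only [Finset.mul_sum]
          rw [Finset.sum_comm]
          refine Finset.sum_congr rfl fun r _ => ?_
          rw [Matrix.mul_apply, map_sum, Finset.sum_mul]
          refine Finset.sum_congr rfl fun s _ => ?_
          rw [C_mul, hM, Matrix.of_apply]
          ring
        rw [h8, hinv]
        simp [Matrix.one_apply]
      rw [h7]
      exact Q.sum_mem fun s _ => Q.mul_mem_left _ (hder s)
  have hconst : ∀ w : MvPolynomial (Fin N) R, w - C (constantCoeff w) ∈ Q := by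
    intro w
    induction w using MvPolynomial.induction_on with
    | C r => simp
    | add p q hp hq =>
      have h1 : p + q - C (constantCoeff (p + q)) =
          (p - C (constantCoeff p)) + (q - C (constantCoeff q)) := by
        rw [map_add, C_add]
        ring
      rw [h1]
      exact Q.add_mem hp hq
    | mul_X p j hp =>
      rw [map_mul, constantCoeff_X, mul_zero, C_0, sub_zero]
      exact Q.mul_mem_left _ (hX j)
  have hEQ : E ∈ Q := by
    rw [hmem, heE]
    exact not_U_zero
  have hconstQ : ∀ w ∈ Q, π ∣ constantCoeff w := by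
    intro w hw
    apply hdvd
    intro hu'
    have h1 : C (constantCoeff w) ∈ Q := by
      have := Q.sub_mem hw (hconst w)
      rwa [sub_sub_cancel] at this
    rw [hmem, heC] at h1
    exact h1 (hunit _ hu')
  have hconstU : ∀ w, U 𝒪 (e w) → ¬ π ∣ constantCoeff w := by
    intro w hw hd
    have h1 : w ∈ Q := by
      have h2 : C (constantCoeff w) ∈ Q := by
        rw [hmem, heC]
        exact hπC _ hd
      have := Q.add_mem (hconst w) h2
      rwa [sub_add_cancel] at this
    exact (hmem w).1 h1 hw
  have hE00 := coeff_zero_E1 π b k m a H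
  rw [← hE] at hE00
  have hk : k = 2 * m + 1 := by
    rcases hkm with h | h
    · exfalso
      have h1 := hconstQ E hEQ
      rw [hE00, h, Nat.sub_self, pow_zero, one_mul] at h1
      exact hπ.not_isUnit (isUnit_of_dvd_unit h1 hb)
    · exact h
  right
  intro h hh hsq
  have h1 : constantCoeff (h * E) ∈ (Ideal.span {π}) ^ 2 := by
    have h2 : Q ≤ (Ideal.span {π}).comap (constantCoeff : MvPolynomial (Fin N) R →+* R) := by
      intro w hw
      rw [Ideal.mem_comap, Ideal.mem_span_singleton]
      exact hconstQ w hw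
    have h3 : Q.map (constantCoeff : MvPolynomial (Fin N) R →+* R) ≤ Ideal.span {π} :=
      Ideal.map_le_iff_le_comap.2 h2
    have h4 := Ideal.mem_map_of_mem (constantCoeff : MvPolynomial (Fin N) R →+* R) hsq
    rw [Ideal.map_pow] at h4
    exact Ideal.pow_right_mono h3 2 h4
  rw [Ideal.span_singleton_pow, Ideal.mem_span_singleton, map_mul, hE00, hk] at h1
  have e1 : 2 * m + 1 - 2 * m = 1 := by omega
  rw [e1, pow_one] at h1
  obtain ⟨c, hc'⟩ := h1
  have h5 : constantCoeff h * b = π * c := by
    have h6 : π * (constantCoeff h * b) = π * (π * c) := by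
      linear_combination hc'
    exact mul_left_cancel₀ hπ.ne_zero h6
  apply hconstU h hh
  have h7 : π ∣ constantCoeff h * b := ⟨c, h5⟩
  exact (hb.dvd_mul_right).1 h7

end one

end Pool.Agent.V8H73.ND
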