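import Pool.Agent.V8H73.ND.Crit
import Pool.Agent.TH214.RM.Good

/-! A local subring presented by one equation. -/

set_option autoImplicit false
set_option linter.unusedSectionVars false
set_option linter.unusedVariables false

namespace Pool.Agent.V8H73.ND

open MvPolynomial Pool.Agent.H918R2.Quad

/-- A local subring which is a localization of `R[X] / (E)` is regular if a derivative of `E` is a
unit or `E` is not in the square of the maximal ideal. -/
theorem regular_single {R F σ : Type} [CommRing R] [IsDomain R] [IsRegularRing R] [Field F]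
    [Algebra R F] [Finite σ] (𝒪 : Subring F) (hloc : IsLoc 𝒪)
    (e : MvPolynomial σ R →ₐ[R] F) (he : ∀ w, e w ∈ 𝒪)
    (hfrac : ∀ x ∈ 𝒪, ∃ a b, e b ≠ 0 ∧ (e b)⁻¹ ∈ 𝒪 ∧ x = e a / e b)
    (E : MvPolynomial σ R) (hE0 : E ≠ 0) (heE : e E = 0)
    (hreg : (∃ j, U 𝒪 (e (pderiv j E))) ∨
      ∀ h, U 𝒪 (e h) → h * E ∉ (primeOf hloc (e : MvPolynomial σ R →+* F) he) ^ 2)
    (j₀ : σ) (hj₀ : AlgebraicIndependent R (fun j : {j : σ // j ≠ j₀} => e (X j))) :
    IsRegularLocalRing 𝒪 := by
  classical
  let I : Ideal (MvPolynomial σ R) := Ideal.span {E}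
  have hI : ∀ w ∈ I, e w = 0 := by
    intro w hw
    obtain ⟨c, rfl⟩ := Ideal.mem_span_singleton.1 hw
    rw [map_mul, heE, zero_mul]
  obtain ⟨A, _, _, pr, hpr, hprk, hpr0⟩ := exists_quot (R := R) I
  have haev : ∀ p : MvPolynomial σ R,
      aeval (fun j : σ => (X j : MvPolynomial σ R)) p = p := by
    intro p
    rw [aeval_X_left_apply]
  refine regular_of_pres 𝒪 hloc pr hpr e ?_ he hfrac ?_
    (fun j : σ => X j) E hE0 ?_ j₀ hj₀ ?_
  · intro w hw
    exact hI w ((hpr0 w).1 hw)
  · intro q hq hqm
    have hEq : pr E = 0 := (hpr0 E).2 (Ideal.mem_span_singleton_self _)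
    have hQ : q.comap (pr : _ →+* A) = primeOf hloc (e : MvPolynomial σ R →+* F) he := by
      ext w
      rw [Ideal.mem_comap, mem_primeOf]
      exact hqm w
    rcases hreg with ⟨j, hj⟩ | h
    · exact regular_of_pderiv E (pr : _ →+* A) hpr hprk q j (fun h => (hqm _).1 h hj)
    · have hid : (q.comap (pr : _ →+* A)).map (RingHom.id _) =
          primeOf hloc (e : MvPolynomial σ R →+* F) he := by
        rw [Ideal.map_id, hQ]
      refine reg_crit_one (W := MvPolynomial σ R) (pr : _ →+* A) hpr {E}
        (by rw [Finset.coe_singleton]; exact hprk) q (RingHom.id _)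
        (fun z => ⟨z, rfl⟩) ?_ ∅ (by simp) ?_ E hEq ?_ ?_
      · intro z hz
        have h0 : z = 0 := by simpa using hz
        rw [h0]
        exact Ideal.zero_mem _
      · intro z hz
        have h0 : z = 0 := by simpa using hz
        refine ⟨1, ?_, ?_⟩
        · rw [map_one]
          exact (Ideal.ne_top_iff_one q).1 hq.ne_top
        · rw [h0, mul_zero, map_zero]
          exact Ideal.zero_mem _
      · intro c hc
        rw [hid] at hc ⊢
        refine h c ?_
        by_contra hcon
        exact hc ((mem_primeOf hloc _ he c).2 hcon)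
      · simp
  · rw [haev, hpr0]
    exact Ideal.mem_span_singleton_self _
  · intro w
    refine ⟨w, 1, by simp, ?_⟩
    rw [haev 1, one_mul, haev]

end Pool.Agent.V8H73.ND
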