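import Pool.Agent.V8H73.ND.LocM

/-! The normal form of the equation at an ordinary double point. -/

set_option autoImplicit false
set_option linter.unusedSectionVars false
set_option linter.unusedVariables false

namespace Pool.Agent.V8H73.ND

open MvPolynomial Pool.Agent.TH214.RM

section taylor

variable {R : Type} [CommRing R] {N : ℕ}

theorem exists_T (f : MvPolynomial (Fin N) R) :
    ∃ (c : R) (a : Fin N → R) (H : Fin N → Fin N → MvPolynomial (Fin N) R),
      f = C c + ∑ s, C (a s) * X s + ∑ s, ∑ r, X s * X r * H s r := by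
  classical
  induction f using MvPolynomial.induction_on with
  | C r => exact ⟨r, 0, 0, by simp⟩
  | add p q hp hq =>
    obtain ⟨c, a, H, hp⟩ := hp
    obtain ⟨c', a', H', hq⟩ := hq
    refine ⟨c + c', a + a', H + H', ?_⟩
    rw [hp, hq]
    simp only [Pi.add_apply, C_add, add_mul, mul_add, Finset.sum_add_distrib]
    ring
  | mul_X p i hp =>
    obtain ⟨c, a, H, hp⟩ := hp
    refine ⟨0, fun s => if s = i then c else 0,
      fun s r => (if r = i then C (a s) else 0) + H s r * X i, ?_⟩
    rw [hp]
    have h1 : ∑ s, (C (if s = i then c else 0) : MvPolynomial (Fin N) R) * X s = C c * X i := by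
      rw [Finset.sum_eq_single i]
      · rw [if_pos rfl]
      · intro s _ hs
        rw [if_neg hs, C_0, zero_mul]
      · intro h
        exact absurd (Finset.mem_univ i) h
    have h2 : ∑ s, ∑ r, X s * X r * ((if r = i then C (a s) else 0) + H s r * X i) =
        (∑ s, C (a s) * X s) * X i + (∑ s, ∑ r, X s * X r * H s r) * X i := by
      rw [Finset.sum_mul, Finset.sum_mul, ← Finset.sum_add_distrib]
      refine Finset.sum_congr rfl fun s _ => ?_
      simp only [mul_add, Finset.sum_add_distrib]
      congr 1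
      · rw [Finset.sum_eq_single i]
        · rw [if_pos rfl]
          ring
        · intro r _ hr
          rw [if_neg hr, mul_zero]
        · intro h
          exact absurd (Finset.mem_univ i) h
      · rw [Finset.sum_mul]
        refine Finset.sum_congr rfl fun r _ => ?_
        ring
    rw [h1, h2, C_0]
    ring

theorem cc_add (p q : MvPolynomial (Fin N) R) : coeff 0 (p + q) = coeff 0 p + coeff 0 q :=
  coeff_add _ _ _

theorem cc_mul (p q : MvPolynomial (Fin N) R) : coeff 0 (p * q) = coeff 0 p * coeff 0 q := by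
  have := map_mul (constantCoeff : MvPolynomial (Fin N) R →+* R) p q
  simpa [constantCoeff_eq] using this

theorem cc_sum {ι : Type} (S : Finset ι) (p : ι → MvPolynomial (Fin N) R) :
    coeff 0 (∑ i ∈ S, p i) = ∑ i ∈ S, coeff 0 (p i) := coeff_sum _ _ _

theorem cc_X (i : Fin N) : coeff 0 (X i : MvPolynomial (Fin N) R) = 0 := by
  have := constantCoeff_X (R := R) i
  simpa [constantCoeff_eq] using this

theorem taylor (f : MvPolynomial (Fin N) R) :
    ∃ (H : Fin N → Fin N → MvPolynomial (Fin N) R),
      f = C (coeff 0 f) + ∑ s, C (coeff 0 (pderiv s f)) * X s + ∑ s, ∑ r, X s * X r * H s r ∧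
      ∀ s r, coeff 0 (H s r) + coeff 0 (H r s) = coeff 0 (pderiv s (pderiv r f)) := by
  classical
  obtain ⟨c, a, H, hf⟩ := exists_T f
  have hc : coeff 0 f = c := by
    rw [hf, cc_add, cc_add, cc_sum, cc_sum, coeff_zero_C]
    have h1 : ∀ s, coeff 0 (∑ r, X s * X r * H s r) = 0 := by
      intro s
      rw [cc_sum]
      refine Finset.sum_eq_zero fun r _ => ?_
      rw [cc_mul, cc_mul, cc_X, zero_mul, zero_mul]
    have h2 : ∀ s, coeff 0 (C (a s) * X s : MvPolynomial (Fin N) R) = 0 := by
      intro s
      rw [cc_mul, cc_X, mul_zero]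
    simp only [h1, h2, Finset.sum_const_zero, add_zero]
  -- the derivatives
  have hd : ∀ j, pderiv j f = C (a j) + ∑ r, X r * (H j r + H r j) +
      ∑ s, ∑ r, X s * X r * pderiv j (H s r) := by
    intro j
    have h1 : ∀ s, pderiv j (C (a s) * X s : MvPolynomial (Fin N) R) =
        if s = j then C (a s) else 0 := by
      intro s
      rw [pderiv_C_mul, pderiv_X]
      simp only [Pi.single_apply]
      split_ifs <;> simp_all
    have h2 : ∀ s r, pderiv j (X s * X r * H s r : MvPolynomial (Fin N) R) =
        (if s = j then X r * H s r else 0) + (if r = j then X s * H s r else 0) +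
          X s * X r * pderiv j (H s r) := by
      intro s r
      rw [pderiv_mul, pderiv_mul, pderiv_X, pderiv_X]
      simp only [Pi.single_apply]
      split_ifs <;> simp_all <;> ring
    rw [hf, map_add, map_add, map_sum, map_sum, pderiv_C, zero_add]
    simp only [h1, map_sum, h2, Finset.sum_add_distrib]
    have h3 : ∑ s, (if s = j then (C (a s) : MvPolynomial (Fin N) R) else 0) = C (a j) := by
      rw [Finset.sum_ite_eq' Finset.univ j, if_pos (Finset.mem_univ _)]
    have h4 : ∑ s, ∑ r, (if s = j then X r * H s r else 0) = ∑ r, X r * H j r := by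
      rw [Finset.sum_comm]
      refine Finset.sum_congr rfl fun r _ => ?_
      rw [Finset.sum_ite_eq' Finset.univ j (fun s => X r * H s r), if_pos (Finset.mem_univ _)]
    have h5 : ∑ s, ∑ r, (if r = j then X s * H s r else 0) = ∑ r, X r * H r j := by
      refine Finset.sum_congr rfl fun s _ => ?_
      rw [Finset.sum_ite_eq' Finset.univ j (fun r => X s * H s r), if_pos (Finset.mem_univ _)]
    rw [h3, h4, h5]
    simp only [mul_add, Finset.sum_add_distrib]
    ring
  have ha : ∀ j, coeff 0 (pderiv j f) = a j := by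
    intro j
    rw [hd, cc_add, cc_add, cc_sum, cc_sum, coeff_zero_C]
    have h1 : ∀ s, coeff 0 (∑ r, X s * X r * pderiv j (H s r)) = 0 := by
      intro s
      rw [cc_sum]
      refine Finset.sum_eq_zero fun r _ => ?_
      rw [cc_mul, cc_mul, cc_X, zero_mul, zero_mul]
    have h2 : ∀ r, coeff 0 (X r * (H j r + H r j) : MvPolynomial (Fin N) R) = 0 := by
      intro s
      rw [cc_mul, cc_X, zero_mul]
    simp only [h1, h2, Finset.sum_const_zero, add_zero]
  refine ⟨H, ?_, ?_⟩
  · rw [hc]
    simp only [ha]
    exact hf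
  · intro s r
    rw [hd r, map_add, map_add, pderiv_C, zero_add, map_sum, map_sum, cc_add, cc_sum, cc_sum]
    have h1 : ∀ i, coeff 0 (pderiv s (X i * (H r i + H i r))) =
        if i = s then coeff 0 (H r i) + coeff 0 (H i r) else 0 := by
      intro i
      rw [pderiv_mul, pderiv_X, cc_add, cc_mul, cc_mul, cc_X, zero_mul, add_zero, cc_add]
      simp only [Pi.single_apply]
      split_ifs <;> simp
    have h2 : ∀ i, coeff 0 (pderiv s (∑ j, X i * X j * pderiv r (H i j))) = 0 := by
      intro i
      rw [map_sum, cc_sum]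
      refine Finset.sum_eq_zero fun j _ => ?_
      rw [pderiv_mul, pderiv_mul, cc_add, cc_mul, cc_add, cc_mul, cc_mul, cc_mul, cc_mul, cc_X, cc_X]
      ring
    simp only [h1, h2, Finset.sum_const_zero, add_zero]
    rw [Finset.sum_ite_eq' Finset.univ s (fun i => coeff 0 (H r i) + coeff 0 (H i r)),
      if_pos (Finset.mem_univ _), add_comm]

/-- translate -/
noncomputable def shift (c : Fin N → R) : MvPolynomial (Fin N) R →ₐ[R] MvPolynomial (Fin N) R :=
  aeval (fun i => X i + C (c i))

theorem cc_eq_eval (p : MvPolynomial (Fin N) R) : coeff 0 p = eval 0 p := by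
  have h : (constantCoeff : MvPolynomial (Fin N) R →+* R) = eval 0 := by
    apply MvPolynomial.ringHom_ext
    · intro r
      simp
    · intro i
      simp
  have := congrArg (fun f => f p) (congrArg DFunLike.coe h)
  simpa [constantCoeff_eq] using this

theorem eval_shift (c h : Fin N → R) (p : MvPolynomial (Fin N) R) :
    eval h (shift c p) = eval (fun i => h i + c i) p := by
  have h1 : (eval h).comp ((shift c : MvPolynomial (Fin N) R →ₐ[R] _) :
      MvPolynomial (Fin N) R →+* _) = eval (fun i => h i + c i) := by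
    apply MvPolynomial.ringHom_ext
    · intro r
      simp [shift]
    · intro i
      simp [shift]
  exact congrArg (fun f => f p) (congrArg DFunLike.coe h1)

theorem pderiv_shift (c : Fin N → R) (j : Fin N) (p : MvPolynomial (Fin N) R) :
    pderiv j (shift c p) = shift c (pderiv j p) := by
  classical
  induction p using MvPolynomial.induction_on with
  | C r =>
    have h1 : shift c (C r) = C r := by simp [shift]
    rw [h1, pderiv_C, map_zero]
  | add p q hp hq => rw [map_add, map_add, map_add, map_add, hp, hq]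
  | mul_X p i hp =>
    have h1 : shift c (X i) = X i + C (c i) := by simp [shift]
    rw [map_mul, pderiv_mul, pderiv_mul, map_add, map_mul, map_mul, hp, h1, map_add, pderiv_C,
      add_zero, pderiv_X]
    congr 2
    simp only [Pi.single_apply]
    split_ifs <;> simp

theorem cc_shift (c : Fin N → R) (p : MvPolynomial (Fin N) R) :
    coeff 0 (shift c p) = eval c p := by
  rw [cc_eq_eval, eval_shift]
  congr 2
  funext i
  simp

/-- Taylor's formula at `c` -/
theorem taylor_eval (g : MvPolynomial (Fin N) R) (c h : Fin N → R) :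
    ∃ e : Fin N → Fin N → R, eval (fun i => h i + c i) g =
      eval c g + ∑ s, eval c (pderiv s g) * h s + ∑ s, ∑ r, h s * h r * e s r := by
  obtain ⟨H, hH, _⟩ := taylor (shift c g)
  refine ⟨fun s r => eval h (H s r), ?_⟩
  rw [← eval_shift, hH, map_add, map_add, map_sum, map_sum]
  simp only [map_sum, map_mul, eval_C, eval_X, pderiv_shift, cc_shift]

end taylor

section newton

variable {R : Type} [CommRing R] [IsDomain R] [IsDiscreteValuationRing R] {N : ℕ}

theorem eval_congr_mod (π : R) (g : MvPolynomial (Fin N) R) (c : Fin N → R)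
    (hc : ∀ j, π ∣ c j) : π ∣ eval c g - coeff 0 g := by
  obtain ⟨e, he⟩ := taylor_eval g 0 c
  have h1 : (fun i => c i + (0 : Fin N → R) i) = c := by
    funext i
    simp
  rw [h1] at he
  rw [he, cc_eq_eval]
  have h2 : eval 0 g + ∑ s, eval 0 (pderiv s g) * c s + ∑ s, ∑ r, c s * c r * e s r - eval 0 g =
      ∑ s, eval 0 (pderiv s g) * c s + ∑ s, ∑ r, c s * c r * e s r := by ring
  rw [h2]
  refine dvd_add (Finset.dvd_sum fun s _ => (hc s).mul_left _)
    (Finset.dvd_sum fun s _ => Finset.dvd_sum fun r _ => ((hc s).mul_right _).mul_right _)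

theorem isUnit_of_mod (π : R) (hπ : Irreducible π) (x y : R) (hx : IsUnit x) (h : π ∣ y - x) :
    IsUnit y := by
  by_contra hy
  have h4 : y ∈ IsLocalRing.maximalIdeal R := hy
  rw [hπ.maximalIdeal_eq, Ideal.mem_span_singleton] at h4
  have h5 : π ∣ x := by
    have := dvd_sub h4 h
    rwa [sub_sub_cancel] at this
  exact hπ.not_isUnit (isUnit_of_dvd_unit h5 hx)

theorem det_mod (π : R) (hπ : Irreducible π) (A B : Matrix (Fin N) (Fin N) R)
    (hA : IsUnit A.det) (h : ∀ i j, π ∣ B i j - A i j) : IsUnit B.det := by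
  have h1 : ∀ i j, IsLocalRing.residue R (B i j) = IsLocalRing.residue R (A i j) := by
    intro i j
    rw [← sub_eq_zero, ← map_sub, IsLocalRing.residue_eq_zero_iff, hπ.maximalIdeal_eq,
      Ideal.mem_span_singleton]
    exact h i j
  have h2 : IsLocalRing.residue R B.det = IsLocalRing.residue R A.det := by
    rw [RingHom.map_det, RingHom.map_det]
    congr 1
    ext i j
    simp [RingHom.mapMatrix_apply, Matrix.map_apply, h1]
  have h3 := hA.map (IsLocalRing.residue R)
  rw [← h2] at h3
  exact (isUnit_map_iff (IsLocalRing.residue R) _).1 h3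

/-- Newton's method. -/
theorem newton (π : R) (hπ : Irreducible π) (g : MvPolynomial (Fin N) R)
    (h1 : ∀ s, π ∣ coeff 0 (pderiv s g))
    (hdet : IsUnit (Matrix.of fun s r => coeff 0 (pderiv s (pderiv r g))).det) (M : ℕ) :
    ∃ c : Fin N → R, (∀ j, π ∣ c j) ∧ ∀ s, π ^ (M + 1) ∣ eval c (pderiv s g) := by
  classical
  induction M with
  | zero =>
    refine ⟨0, fun j => dvd_zero _, fun s => ?_⟩
    rw [zero_add, pow_one, ← cc_eq_eval]
    exact h1 s
  | succ M ih =>
    obtain ⟨c, hc, hcs⟩ := ih
    choose q hq using hcs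
    set A : Matrix (Fin N) (Fin N) R := Matrix.of fun s r => eval c (pderiv r (pderiv s g)) with hA
    have hAdet : IsUnit A.det := by
      have h2 : IsUnit (Matrix.of fun s r => coeff 0 (pderiv r (pderiv s g))).det := by
        have h3 : (Matrix.of fun s r => coeff 0 (pderiv r (pderiv s g))) =
            (Matrix.of fun s r => coeff 0 (pderiv s (pderiv r g)) :
              Matrix (Fin N) (Fin N) R).transpose := by
          ext s r
          rfl
        rw [h3, Matrix.det_transpose]
        exact hdet
      refine det_mod π hπ _ A h2 fun i j => ?_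
      rw [hA, Matrix.of_apply, Matrix.of_apply]
      exact eval_congr_mod π _ c hc
    let δ : Fin N → R := fun r => - ∑ s, A⁻¹ r s * q s
    have hδ : ∀ s, ∑ r, eval c (pderiv r (pderiv s g)) * δ r = - q s := by
      intro s
      have h3 : A * A⁻¹ = 1 := Matrix.mul_nonsing_inv A hAdet
      have h4 : ∑ r, eval c (pderiv r (pderiv s g)) * δ r = - ∑ i, (A * A⁻¹) s i * q i := by
        simp only [δ, Matrix.mul_apply, mul_neg, Finset.sum_neg_distrib, Finset.mul_sum,
          Finset.sum_mul]
        rw [Finset.sum_comm]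
        congr 1
        refine Finset.sum_congr rfl fun i _ => Finset.sum_congr rfl fun r _ => ?_
        rw [hA, Matrix.of_apply]
        ring
      rw [h4, h3]
      simp [Matrix.one_apply]
    refine ⟨fun i => π ^ (M + 1) * δ i + c i, fun j => ?_, fun s => ?_⟩
    · refine dvd_add (Dvd.dvd.mul_right ?_ _) (hc j)
      exact dvd_pow_self π (by omega)
    · obtain ⟨e, he⟩ := taylor_eval (pderiv s g) c (fun i => π ^ (M + 1) * δ i)
      rw [he, hq s]
      have h5 : ∑ r, eval c (pderiv r (pderiv s g)) * (π ^ (M + 1) * δ r) =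
          π ^ (M + 1) * (- q s) := by
        rw [← hδ, Finset.mul_sum]
        refine Finset.sum_congr rfl fun r _ => ?_
        ring
      rw [h5]
      have h6 : π ^ (M + 1) * q s + π ^ (M + 1) * -q s +
          ∑ i, ∑ r, π ^ (M + 1) * δ i * (π ^ (M + 1) * δ r) * e i r =
          π ^ (M + 1) * (π ^ (M + 1) * ∑ i, ∑ r, δ i * δ r * e i r) := by
        simp only [Finset.mul_sum]
        rw [mul_neg, add_neg_cancel, zero_add]
        refine Finset.sum_congr rfl fun i _ => Finset.sum_congr rfl fun r _ => ?_
        ring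
      rw [h6]
      have h7 : π ^ (M + 1 + 1) ∣ π ^ (M + 1) * π ^ (M + 1) := by
        rw [← pow_add]
        exact pow_dvd_pow π (by omega)
      rw [← mul_assoc]
      exact h7.mul_right _

end newton

section normal

variable {R : Type} [CommRing R] [IsDomain R] [IsDiscreteValuationRing R] {n : ℕ}

/-- move the point `(1 : c)` to `(1 : 0)` -/
noncomputable def tr {R : Type} [CommRing R] {n : ℕ} (c : Fin n → R) :
    MvPolynomial (Fin (n + 1)) R →ₐ[R] MvPolynomial (Fin (n + 1)) R :=
  aeval (Fin.cases (X 0) (fun j => X j.succ + C (c j) * X 0))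

theorem deh0_tr (c : Fin n → R) (G : MvPolynomial (Fin (n + 1)) R) :
    deh0 (tr c G) = shift c (deh0 G) := by
  unfold deh0 tr shift
  rw [← AlgHom.comp_apply, ← AlgHom.comp_apply]
  congr 1
  apply MvPolynomial.algHom_ext
  intro i
  rw [AlgHom.comp_apply, AlgHom.comp_apply, aeval_X, aeval_X]
  refine Fin.cases ?_ (fun j => ?_) i
  · simp
  · simp

theorem eval_deh0 (c : Fin n → R) (G : MvPolynomial (Fin (n + 1)) R) :
    eval c (deh0 G) = eval (Fin.cases 1 c : Fin (n + 1) → R) G := by
  have h := aeval_deh0 (A := R) G c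
  simpa [aeval_eq_eval] using h

theorem pderiv_deh0 (G : MvPolynomial (Fin (n + 1)) R) (j : Fin n) :
    pderiv j (deh0 G) = deh0 (pderiv j.succ G) := by
  classical
  unfold deh0
  induction G using MvPolynomial.induction_on with
  | C a => simp
  | add p q hp hq =>
    simp only [map_add] at hp hq ⊢
    rw [hp, hq]
  | mul_X p i hp =>
    simp only [map_mul, aeval_X]
    rw [pderiv_mul, pderiv_mul, hp]
    simp only [map_add, map_mul, aeval_X]
    congr 2
    refine Fin.cases ?_ (fun i => ?_) i
    · simp only [Fin.cases_zero, pderiv_one]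
      rw [pderiv_X_of_ne (Fin.succ_ne_zero j).symm, map_zero]
    · simp only [Fin.cases_succ]
      by_cases h : i = j
      · subst h
        rw [pderiv_X_self, pderiv_X_self, map_one]
      · rw [pderiv_X_of_ne h, pderiv_X_of_ne (fun h' => h (Fin.succ_injective _ h')), map_zero]

theorem tr_homog (c : Fin n → R) (G : MvPolynomial (Fin (n + 1)) R) (d : ℕ)
    (hG : G.IsHomogeneous d) : (tr c G).IsHomogeneous d := by
  have h1 : (tr c G).IsHomogeneous (1 * d) := by
    refine hG.aeval _ fun i => ?_
    refine Fin.cases ?_ (fun j => ?_) i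
    · exact isHomogeneous_X _ _
    · refine (isHomogeneous_X _ _).add ?_
      have h2 := (isHomogeneous_C (Fin (n + 1)) (c j)).mul (isHomogeneous_X R (0 : Fin (n + 1)))
      rwa [zero_add] at h2
  rwa [one_mul] at h1

/-- The normal form at a node. -/
theorem exists_normal (π : R) (hπ : Irreducible π) (G : MvPolynomial (Fin (n + 1)) R) (d : ℕ)
    (hG : G.IsHomogeneous d) (h0 : π ∣ coeff 0 (deh0 G))
    (h1 : ∀ s, π ∣ coeff 0 (pderiv s (deh0 G)))
    (hdet : IsUnit (Matrix.of fun s r => coeff 0 (pderiv s (pderiv r (deh0 G)))).det)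
    (c₁ : R) (hc₁ : c₁ ≠ 0) (e : ℕ)
    (hsm : C c₁ * X 0 ^ e ∈ Ideal.span (Set.range fun j => pderiv j G)) :
    ∃ (c : Fin n → R) (b : R) (k : ℕ) (a : Fin n → R)
      (H : Fin n → Fin n → MvPolynomial (Fin n) R), (∀ j, π ∣ c j) ∧ IsUnit b ∧ 1 ≤ k ∧
      IsUnit (Matrix.of fun s r => coeff 0 (H s r) + coeff 0 (H r s)).det ∧
      deh0 (tr c G) = nodeEq π b k a H := by
  classical
  -- the precision
  obtain ⟨M, hM⟩ : ∃ M, ¬ π ^ (M + 1) ∣ c₁ := by
    obtain ⟨v, u, hu⟩ := IsDiscreteValuationRing.eq_unit_mul_pow_irreducible hc₁ hπ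
    refine ⟨v, fun h => ?_⟩
    rw [hu] at h
    have h2 : π ^ (v + 1) ∣ π ^ v := (Units.isUnit u).dvd_mul_left.1 h
    have h3 := (pow_dvd_pow_iff hπ.ne_zero hπ.not_isUnit).1 h2
    omega
  obtain ⟨c, hc, hcs⟩ := newton π hπ (deh0 G) h1 hdet M
  set g := deh0 G with hg
  have hgc : ¬ π ^ (M + 1) ∣ eval c g := by
    intro h
    apply hM
    set pt : Fin (n + 1) → R := Fin.cases 1 c with hpt
    have hall : ∀ j, π ^ (M + 1) ∣ eval pt (pderiv j G) := by
      have hsucc : ∀ j : Fin n, π ^ (M + 1) ∣ eval pt (pderiv j.succ G) := by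
        intro j
        have := hcs j
        rwa [hg, pderiv_deh0, eval_deh0] at this
      intro j
      refine Fin.cases ?_ (fun j => hsucc j) j
      have h2 := congrArg (eval pt) hG.sum_X_mul_pderiv
      rw [map_sum, Fin.sum_univ_succ, map_nsmul] at h2
      simp only [map_mul, eval_X] at h2
      have h3 : pt 0 = 1 := rfl
      rw [h3, one_mul] at h2
      have h4 : eval pt (pderiv 0 G) = d • eval pt G -
          ∑ i : Fin n, pt i.succ * eval pt (pderiv i.succ G) := by
        rw [eq_sub_iff_add_eq]
        exact h2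
      rw [h4]
      refine dvd_sub ?_ (Finset.dvd_sum fun i _ => (hsucc i).mul_left _)
      rw [nsmul_eq_mul]
      refine Dvd.dvd.mul_left ?_ _
      rw [hpt, ← eval_deh0]
      exact h
    have h5 : Ideal.span (Set.range fun j => pderiv j G) ≤
        (Ideal.span {π ^ (M + 1)}).comap (eval pt) := by
      rw [Ideal.span_le]
      rintro _ ⟨j, rfl⟩
      rw [SetLike.mem_coe, Ideal.mem_comap, Ideal.mem_span_singleton]
      exact hall j
    have h6 := h5 hsm
    rw [Ideal.mem_comap, Ideal.mem_span_singleton, map_mul, eval_C, map_pow, eval_X] at h6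
    have h3 : pt 0 = 1 := rfl
    rwa [h3, one_pow, mul_one] at h6
  have hgc0 : eval c g ≠ 0 := fun h => hgc (by rw [h]; exact dvd_zero _)
  obtain ⟨k, u, hu⟩ := IsDiscreteValuationRing.eq_unit_mul_pow_irreducible hgc0 hπ
  have hkM : k ≤ M := by
    by_contra h
    apply hgc
    rw [hu]
    exact (pow_dvd_pow π (by omega)).mul_left _
  have hk1 : 1 ≤ k := by
    by_contra h
    have hk0 : k = 0 := by omega
    rw [hk0, pow_zero, mul_one] at hu
    have h2 := eval_congr_mod π g c hc
    have h3 : π ∣ eval c g := by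
      have := dvd_add h2 h0
      rwa [sub_add_cancel] at this
    rw [hu] at h3
    exact hπ.not_isUnit (isUnit_of_dvd_unit h3 u.isUnit)
  have ha : ∀ s, ∃ a, eval c (pderiv s g) = π ^ k * a := by
    intro s
    obtain ⟨q, hq⟩ := hcs s
    refine ⟨π ^ (M + 1 - k) * q, ?_⟩
    rw [hq, ← mul_assoc, ← pow_add]
    congr 2
    omega
  choose a ha using ha
  obtain ⟨H, hH, hH2⟩ := taylor (shift c g)
  refine ⟨c, u, k, a, H, hc, u.isUnit, hk1, ?_, ?_⟩
  · have h2 : (Matrix.of fun s r => coeff 0 (H s r) + coeff 0 (H r s)) =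
        (Matrix.of fun s r => eval c (pderiv s (pderiv r g)) : Matrix (Fin n) (Fin n) R) := by
      ext s r
      rw [Matrix.of_apply, Matrix.of_apply, hH2, pderiv_shift, pderiv_shift, cc_shift]
    rw [h2]
    refine det_mod π hπ _ _ hdet fun i j => ?_
    rw [Matrix.of_apply, Matrix.of_apply]
    exact eval_congr_mod π _ c hc
  · rw [deh0_tr, ← hg, hH]
    unfold nodeEq
    rw [cc_shift, hu, mul_comm (u : R)]
    simp only [pderiv_shift, cc_shift, ha]

end normal

end Pool.Agent.V8H73.ND
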