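import Pool.Agent.V8H73.ND.Single

/-! The exceptional charts of the blow-ups of an ordinary double point. -/

set_option autoImplicit false
set_option linter.unusedSectionVars false
set_option linter.unusedVariables false

namespace Pool.Agent.V8H73.ND

open MvPolynomial Pool.Agent.H918R2.Quad

section basic

variable {R : Type} [CommRing R] {N : ℕ}

/-- The equation of a node: `π ^ k b + π ^ k ∑ a_s X_s + ∑ X_s X_r H_sr`. -/
noncomputable def nodeEq (π b : R) (k : ℕ) (a : Fin N → R)
    (H : Fin N → Fin N → MvPolynomial (Fin N) R) : MvPolynomial (Fin N) R :=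
  C (π ^ k * b) + ∑ s, C (π ^ k * a s) * X s + ∑ s, ∑ r, X s * X r * H s r

/-- The strict transform, as a function. -/
noncomputable def EV {B : Type} [CommRing B] [Algebra R B] (π b : R) (k l : ℕ) (a : Fin N → R)
    (H : Fin N → Fin N → MvPolynomial (Fin N) R) (z w : B) (v : Fin N → B) : B :=
  algebraMap R B b * z ^ (k - 2 * l - 2) * w ^ (k - 2 * l) +
    ∑ s, algebraMap R B (a s) * v s * (z ^ (k - l - 1) * w ^ (k - l)) +
    ∑ s, ∑ r, v s * v r * aeval (fun i => algebraMap R B (π ^ l) * z * v i) (H s r)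

theorem EV_map {B B' : Type} [CommRing B] [Algebra R B] [CommRing B'] [Algebra R B']
    (f : B →ₐ[R] B') (π b : R) (k l : ℕ) (a : Fin N → R)
    (H : Fin N → Fin N → MvPolynomial (Fin N) R) (z w : B) (v : Fin N → B) :
    f (EV π b k l a H z w v) = EV π b k l a H (f z) (f w) (fun i => f (v i)) := by
  unfold EV
  simp only [map_add, map_sum, map_mul, map_pow, AlgHom.commutes]
  refine congrArg₂ (· + ·) rfl (Finset.sum_congr rfl fun s _ =>
    Finset.sum_congr rfl fun r _ => congrArg₂ (· * ·) rfl ?_)
  rw [← AlgHom.comp_apply]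
  congr 1
  apply MvPolynomial.algHom_ext
  intro i
  rw [AlgHom.comp_apply, aeval_X, aeval_X]
  simp only [map_mul, map_pow, AlgHom.commutes]

theorem ident {B : Type} [CommRing B] [Algebra R B] (π b : R) (k l : ℕ) (hkl : 2 * l + 2 ≤ k)
    (a : Fin N → R) (H : Fin N → Fin N → MvPolynomial (Fin N) R) (z w : B) (v : Fin N → B)
    (hzw : z * w = algebraMap R B π) :
    aeval (fun i => algebraMap R B (π ^ l) * z * v i) (nodeEq π b k a H) =
      (algebraMap R B (π ^ l) * z) ^ 2 * EV π b k l a H z w v := by
  obtain ⟨m, rfl⟩ := Nat.exists_eq_add_of_le hkl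
  have e1 : 2 * l + 2 + m - 2 * l - 2 = m := by omega
  have e2 : 2 * l + 2 + m - 2 * l = m + 2 := by omega
  have e3 : 2 * l + 2 + m - l - 1 = l + 1 + m := by omega
  have e4 : 2 * l + 2 + m - l = l + 2 + m := by omega
  have h1 : algebraMap R B (π ^ (2 * l + 2 + m)) =
      algebraMap R B (π ^ l) ^ 2 * (z * w) ^ (m + 2) := by
    rw [hzw, ← map_pow, ← map_pow, ← map_mul]
    congr 1
    ring
  have h2 : algebraMap R B (π ^ (2 * l + 2 + m)) =
      algebraMap R B (π ^ l) * (z * w) ^ (l + 2 + m) := by
    rw [hzw, ← map_pow, ← map_mul]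
    congr 1
    ring
  unfold nodeEq EV
  rw [e1, e2, e3, e4]
  simp only [map_add, map_sum, map_mul, aeval_X, aeval_C]
  rw [mul_add, mul_add, Finset.mul_sum, Finset.mul_sum]
  congr 1
  · congr 1
    · rw [h1]
      ring
    · refine Finset.sum_congr rfl fun s _ => ?_
      rw [h2]
      ring
  · refine Finset.sum_congr rfl fun s _ => ?_
    rw [Finset.mul_sum]
    refine Finset.sum_congr rfl fun r _ => ?_
    ring

end basic

section two

variable {R F : Type} [CommRing R] [IsDomain R] [IsDiscreteValuationRing R] [Field F]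
  [Algebra R F] {N : ℕ}

/-- the coordinates `v` in the big polynomial ring -/
noncomputable def tw {B : Type} [CommRing B] (j₁ : Fin N) (j : Fin N) :
    MvPolynomial (Option (Option {j : Fin N // j ≠ j₁})) B :=
  if h : j = j₁ then 1 else X (some (some ⟨j, h⟩))

/-- the variable `z` -/
noncomputable def zv (R : Type) [CommRing R] (j₁ : Fin N) (sw : Bool) :
    MvPolynomial (Option (Option {j : Fin N // j ≠ j₁})) R :=
  if sw then X none else X (some none)

/-- the variable `w` -/
noncomputable def wv (R : Type) [CommRing R] (j₁ : Fin N) (sw : Bool) :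
    MvPolynomial (Option (Option {j : Fin N // j ≠ j₁})) R :=
  if sw then X (some none) else X none

theorem zv_mul_wv (j₁ : Fin N) (sw : Bool) : zv R j₁ sw * wv R j₁ sw = X none * X (some none) := by
  cases sw
  · simp only [zv, wv, Bool.false_eq_true, if_false]
    rw [mul_comm]
  · simp only [zv, wv, if_true]

theorem th_tw (j₁ s : Fin N) : th R (Option {j : Fin N // j ≠ j₁}) (tw j₁ s) = tv j₁ s := by
  unfold tw tv
  split_ifs with h
  · rw [map_one]
  · rw [th_some]

theorem th_aeval (j₁ : Fin N) (y : Fin N → MvPolynomial (Option (Option {j : Fin N // j ≠ j₁})) R)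
    (hy : ∀ i, th R _ (y i) = 0) (P : MvPolynomial (Fin N) R) :
    th R _ (aeval y P) = C (IsLocalRing.residue R (coeff 0 P)) := by
  have h1 : (th R (Option {j : Fin N // j ≠ j₁})).comp
      ((aeval y : MvPolynomial (Fin N) R →ₐ[R] _) : MvPolynomial (Fin N) R →+* _) =
      (C.comp (IsLocalRing.residue R)).comp (constantCoeff) := by
    apply MvPolynomial.ringHom_ext'
    · ext r
      simp [th_C]
    · intro i
      simp [hy]
  exact congrArg (fun f => f P) (congrArg DFunLike.coe h1)

/-- The strict transform in the big polynomial ring. -/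
noncomputable def Ew (π b : R) (k l : ℕ) (a : Fin N → R)
    (H : Fin N → Fin N → MvPolynomial (Fin N) R) (j₁ : Fin N) (sw : Bool) :
    MvPolynomial (Option (Option {j : Fin N // j ≠ j₁})) R :=
  EV π b k l a H (zv R j₁ sw) (wv R j₁ sw) (fun i => tw j₁ i)

theorem th_Ew (π b : R) (hπ : Irreducible π) (k l : ℕ) (hkl : 2 * l + 2 ≤ k) (a : Fin N → R)
    (H : Fin N → Fin N → MvPolynomial (Fin N) R) (j₁ : Fin N) (sw : Bool)
    (hsw : sw = false → 1 ≤ l) :
    ∃ b', th R _ (Ew π b k l a H j₁ sw) =
      qd j₁ b' (fun s r => IsLocalRing.residue R (coeff 0 (H s r))) := by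
  have hres : IsLocalRing.residue R π = 0 := by
    rw [IsLocalRing.residue_eq_zero_iff, hπ.maximalIdeal_eq]
    exact Ideal.mem_span_singleton_self π
  have hal : ∀ r : R, algebraMap R (MvPolynomial (Option (Option {j : Fin N // j ≠ j₁})) R) r = C r :=
    fun r => rfl
  have hy : ∀ i, th R _ (algebraMap R _ (π ^ l) * zv R j₁ sw * tw j₁ i) = 0 := by
    intro i
    rw [hal, map_mul, map_mul, th_C]
    cases sw
    · have := hsw rfl
      have h1 : IsLocalRing.residue R (π ^ l) = 0 := by
        rw [map_pow, hres, zero_pow (by omega)]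
      rw [h1, C_0, zero_mul, zero_mul]
    · have h1 : th R _ (zv R j₁ true) = 0 := by
        simp only [zv, if_true]
        exact th_none
      rw [h1, mul_zero, zero_mul]
  have hquad : th R _ (∑ s, ∑ r, tw j₁ s * tw j₁ r *
      aeval (fun i => algebraMap R _ (π ^ l) * zv R j₁ sw * tw j₁ i) (H s r)) =
      ∑ s, ∑ r, C (IsLocalRing.residue R (coeff 0 (H s r))) * tv j₁ s * tv j₁ r := by
    rw [map_sum]
    refine Finset.sum_congr rfl fun s _ => ?_
    rw [map_sum]
    refine Finset.sum_congr rfl fun r _ => ?_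
    rw [map_mul, map_mul, th_aeval j₁ _ hy, th_tw, th_tw]
    ring
  cases sw
  · refine ⟨0, ?_⟩
    have h1 : th R _ (wv R j₁ false) = 0 := by
      simp only [wv, Bool.false_eq_true, if_false]
      exact th_none
    unfold Ew EV qd
    rw [map_add, map_add, hquad, map_mul, map_mul, map_pow, map_pow, h1, zero_pow (by omega),
      mul_zero, zero_add, map_sum]
    have h2 : ∀ s, th R _ (algebraMap R _ (a s) * tw j₁ s *
        (zv R j₁ false ^ (k - l - 1) * wv R j₁ false ^ (k - l))) = 0 := by
      intro s
      rw [map_mul, map_mul, map_mul, map_pow, map_pow, h1, zero_pow (by omega), mul_zero, mul_zero]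
    simp only [h2, Finset.sum_const_zero, C_0, zero_mul]
  · have h1 : th R _ (zv R j₁ true) = 0 := by
      simp only [zv, if_true]
      exact th_none
    have h3 : th R _ (wv R j₁ true) = X none := by
      simp only [wv, if_true]
      exact th_some _
    refine ⟨if k = 2 * l + 2 then IsLocalRing.residue R b else 0, ?_⟩
    unfold Ew EV qd
    rw [map_add, map_add, hquad, map_mul, map_mul, map_pow, map_pow, h1, h3, map_sum]
    have h2 : ∀ s, th R _ (algebraMap R _ (a s) * tw j₁ s *
        (zv R j₁ true ^ (k - l - 1) * wv R j₁ true ^ (k - l))) = 0 := by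
      intro s
      rw [map_mul, map_mul, map_mul, map_pow, map_pow, h1, zero_pow (by omega), zero_mul, mul_zero]
    simp only [h2, Finset.sum_const_zero, add_zero]
    congr 1
    by_cases hk : k = 2 * l + 2
    · have e1 : k - 2 * l - 2 = 0 := by omega
      have e2 : k - 2 * l = 2 := by omega
      rw [if_pos hk, e1, e2, pow_zero, mul_one, hal, th_C]
    · rw [if_neg hk, zero_pow (by omega), mul_zero, zero_mul, C_0, zero_mul]

/-- Regularity in the exceptional charts with `z w = π`. -/
theorem regular_two (𝒪 : Subring F) (hloc : IsLoc 𝒪)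
    (hR : ∀ r : R, algebraMap R F r ∈ 𝒪) (hinj : Function.Injective (algebraMap R F))
    (π : R) (hπ : Irreducible π)
    (b : R) (k l : ℕ) (hkl : 2 * l + 2 ≤ k) (a : Fin N → R)
    (H : Fin N → Fin N → MvPolynomial (Fin N) R)
    (hdet : IsUnit (Matrix.of fun s r => IsLocalRing.residue R (coeff 0 (H s r)) +
      IsLocalRing.residue R (coeff 0 (H r s))).det)
    (hP : nodeEq π b k a H ≠ 0)
    (j₁ : Fin N) (t v : Fin N → F) (z w : F) (hzw : z * w = algebraMap R F π) (hv1 : v j₁ = 1)
    (ht : ∀ i, t i = algebraMap R F (π ^ l) * z * v i) (hz0 : z ≠ 0) (hz : z ∈ 𝒪) (hw : w ∈ 𝒪)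
    (hv : ∀ i, v i ∈ 𝒪) (hrel : aeval t (nodeEq π b k a H) = 0) (j₀ : Fin N)
    (hj₀ : AlgebraicIndependent R (fun j : {j : Fin N // j ≠ j₀} => t j))
    (sw : Bool) (hnu : ¬ U 𝒪 (if sw then z else w)) (hsw : sw = false → 1 ≤ l)
    (hfrac : ∀ x ∈ 𝒪, ∃ c ∈ Algebra.adjoin R (insert z (insert w (Set.range v))),
      ∃ d ∈ Algebra.adjoin R (insert z (insert w (Set.range v))),
      d ≠ 0 ∧ d⁻¹ ∈ 𝒪 ∧ x = c / d) : IsRegularLocalRing 𝒪 := by
  classical
  set W := MvPolynomial (Option (Option {j : Fin N // j ≠ j₁})) R with hW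
  let e : W →ₐ[R] F := aeval (fun o => match o with
    | none => if sw then z else w
    | some none => if sw then w else z
    | some (some j) => v j)
  have he0 : e (X none) = if sw then z else w := aeval_X _ _
  have he1 : e (X (some none)) = if sw then w else z := aeval_X _ _
  have he2 : ∀ j, e (X (some (some j))) = v j := fun j => aeval_X _ _
  have hez : e (zv R j₁ sw) = z := by
    unfold zv
    cases sw
    · simp only [Bool.false_eq_true, if_false] at he1 ⊢
      exact he1
    · simp only [if_true] at he0 ⊢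
      exact he0
  have hew : e (wv R j₁ sw) = w := by
    unfold wv
    cases sw
    · simp only [Bool.false_eq_true, if_false] at he0 ⊢
      exact he0
    · simp only [if_true] at he1 ⊢
      exact he1
  have het : ∀ i, e (tw j₁ i) = v i := by
    intro i
    unfold tw
    split_ifs with h
    · rw [map_one, h, hv1]
    · exact he2 _
  have heC : ∀ r, e (C r) = algebraMap R F r := fun r => aeval_C _ r
  have he : ∀ u, e u ∈ 𝒪 := by
    intro u
    induction u using MvPolynomial.induction_on with
    | C r => rw [heC]; exact hR r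
    | add p q hp hq => rw [map_add]; exact 𝒪.add_mem hp hq
    | mul_X p j hp =>
      rw [map_mul]
      refine 𝒪.mul_mem hp ?_
      rcases j with _ | _ | j
      · rw [he0]; split_ifs <;> assumption
      · rw [he1]; split_ifs <;> assumption
      · rw [he2]; exact hv _
  have hrange : ∀ u ∈ Algebra.adjoin R (insert z (insert w (Set.range v))), ∃ p, u = e p := by
    intro u hu
    have h1 : Algebra.adjoin R (insert z (insert w (Set.range v))) ≤ e.range := by
      rw [Algebra.adjoin_le_iff]
      intro y hy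
      rcases hy with rfl | rfl | ⟨i, rfl⟩
      · exact ⟨_, hez⟩
      · exact ⟨_, hew⟩
      · exact ⟨_, het i⟩
    obtain ⟨p, hp⟩ := h1 hu
    exact ⟨p, hp.symm⟩
  have hfrac' : ∀ x ∈ 𝒪, ∃ a b : W, e b ≠ 0 ∧ (e b)⁻¹ ∈ 𝒪 ∧ x = e a / e b := by
    intro x hx
    obtain ⟨c, hc, d, hd, h1, h2, h3⟩ := hfrac x hx
    obtain ⟨p, rfl⟩ := hrange c hc
    obtain ⟨q, rfl⟩ := hrange d hd
    exact ⟨p, q, h1, h2, h3⟩
  have hal : ∀ r : R, algebraMap R W r = C r := fun r => rfl
  set E : W := Ew π b k l a H j₁ sw with hE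
  have hπl : algebraMap R F (π ^ l) ≠ 0 := by
    rw [Ne, map_eq_zero_iff _ hinj]
    exact pow_ne_zero _ hπ.ne_zero
  have heE : e E = 0 := by
    have h1 := ident π b k l hkl a H z w v hzw
    have h2 : (fun i => algebraMap R F (π ^ l) * z * v i) = t := by
      funext i
      exact (ht i).symm
    rw [h2, hrel] at h1
    have h3 : EV π b k l a H z w v = 0 :=
      (mul_eq_zero.1 h1.symm).resolve_left (pow_ne_zero 2 (mul_ne_zero hπl hz0))
    have h4 : e E = EV π b k l a H z w v := by
      rw [hE, Ew, EV_map, hez, hew]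
      congr 1
      funext i
      exact het i
    rw [h4, h3]
  let I : Ideal W := Ideal.span {X none * X (some none) - C π, E}
  have hI : ∀ u ∈ I, e u = 0 := by
    have h1 : I ≤ RingHom.ker (e : W →+* F) := by
      rw [Ideal.span_le]
      intro x hx
      simp only [Set.mem_insert_iff, Set.mem_singleton_iff] at hx
      rcases hx with rfl | rfl
      · rw [SetLike.mem_coe, RingHom.mem_ker]
        change e _ = 0
        rw [map_sub, heC, ← zv_mul_wv j₁ sw, map_mul, hez, hew, hzw, sub_self]
      · exact heE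
    intro u hu
    exact h1 hu
  obtain ⟨A, _, _, pr, hpr, hprk, hpr0⟩ := exists_quot (R := R) I
  have hzwA : pr (zv R j₁ sw) * pr (wv R j₁ sw) = algebraMap R A π := by
    rw [← map_mul, zv_mul_wv, ← sub_eq_zero, ← AlgHom.commutes pr, ← map_sub, hpr0]
    exact Ideal.subset_span (by simp [hal])
  have hprE : pr E = 0 := (hpr0 E).2 (Ideal.subset_span (by simp))
  let y : Fin N → W := fun i => C (π ^ l) * zv R j₁ sw * tw j₁ i
  have hey : ∀ i, e (y i) = t i := by
    intro i
    simp only [y, map_mul, heC, hez, het]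
    exact (ht i).symm
  have hy1 : y j₁ = C (π ^ l) * zv R j₁ sw := by
    simp only [y, tw, dif_pos, mul_one]
  have hgood : ∀ u : W, ∃ p p' : MvPolynomial (Fin N) R, e (aeval y p') ≠ 0 ∧
      pr (aeval y p' * u) = pr (aeval y p) := by
    have hvar : ∀ o, ∃ p p' : MvPolynomial (Fin N) R, e (aeval y p') ≠ 0 ∧
        pr (aeval y p' * X o) = pr (aeval y p) := by
      have hyj : e (y j₁) ≠ 0 := by
        rw [hey, ht, hv1, mul_one]
        exact mul_ne_zero hπl hz0
      have hZ : ∃ p p' : MvPolynomial (Fin N) R, e (aeval y p') ≠ 0 ∧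
          pr (aeval y p' * zv R j₁ sw) = pr (aeval y p) := by
        refine ⟨X j₁, C (π ^ l), ?_, ?_⟩
        · rw [aeval_C, hal, heC]
          exact hπl
        · rw [aeval_C, aeval_X, hy1, hal]
      have hWv : ∃ p p' : MvPolynomial (Fin N) R, e (aeval y p') ≠ 0 ∧
          pr (aeval y p' * wv R j₁ sw) = pr (aeval y p) := by
        refine ⟨C (π ^ (l + 1)), X j₁, ?_, ?_⟩
        · rw [aeval_X]
          exact hyj
        · rw [aeval_C, aeval_X, hy1, map_mul, map_mul, mul_assoc, hzwA, ← hal, AlgHom.commutes,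
            ← map_mul, ← pow_succ, AlgHom.commutes]
      intro o
      rcases o with _ | _ | j
      · cases sw
        · simpa [wv] using hWv
        · simpa [zv] using hZ
      · cases sw
        · simpa [zv] using hZ
        · simpa [wv] using hWv
      · refine ⟨X (j : Fin N), X j₁, ?_, ?_⟩
        · rw [aeval_X]
          exact hyj
        · rw [aeval_X, aeval_X, hy1]
          have h5 : tw (B := R) j₁ (j : Fin N) = X (some (some j)) := by
            unfold tw
            rw [dif_neg j.2]
          simp only [y, h5]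
    intro u
    induction u using MvPolynomial.induction_on with
    | C r =>
      refine ⟨C r, 1, by simp, ?_⟩
      rw [map_one, one_mul, aeval_C, hal]
    | add u₁ u₂ h1 h2 =>
      obtain ⟨p₁, p₁', a1, b1⟩ := h1
      obtain ⟨p₂, p₂', a2, b2⟩ := h2
      refine ⟨p₁ * p₂' + p₂ * p₁', p₁' * p₂', ?_, ?_⟩
      · rw [map_mul, map_mul]
        exact mul_ne_zero a1 a2
      · have h3 : aeval y (p₁' * p₂') * (u₁ + u₂) = (aeval y p₁' * u₁) * aeval y p₂' +
            (aeval y p₂' * u₂) * aeval y p₁' := by
          rw [map_mul]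
          ring
        rw [h3, map_add, map_mul pr (aeval y p₁' * u₁), map_mul pr (aeval y p₂' * u₂), b1, b2,
          ← map_mul, ← map_mul, ← map_mul, ← map_mul, ← map_add, ← map_add]
    | mul_X u o h1 =>
      obtain ⟨p₁, p₁', a1, b1⟩ := h1
      obtain ⟨p₂, p₂', a2, b2⟩ := hvar o
      refine ⟨p₁ * p₂, p₁' * p₂', ?_, ?_⟩
      · rw [map_mul, map_mul]
        exact mul_ne_zero a1 a2
      · have h3 : aeval y (p₁' * p₂') * (u * X o) = (aeval y p₁' * u) * (aeval y p₂' * X o) := by
          rw [map_mul]
          ring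
        rw [h3, map_mul pr (aeval y p₁' * u), b1, b2, ← map_mul, ← map_mul]
  obtain ⟨b', hb'⟩ := th_Ew π b hπ k l hkl a H j₁ sw hsw
  rw [← hE] at hb'
  refine regular_of_pres 𝒪 hloc pr hpr e ?_ he hfrac' ?_ y (nodeEq π b k a H) hP ?_ j₀ ?_ hgood
  · intro u hu
    exact hI u ((hpr0 u).1 hu)
  · intro q hq hqm
    have hnone : pr (X none) ∈ q := by
      rw [hqm, he0]
      exact hnu
    have hqdm : qd j₁ b' (fun s r => IsLocalRing.residue R (coeff 0 (H s r))) ∈
        (q.comap (pr : W →+* A)).map (th R (Option {j : Fin N // j ≠ j₁})) := by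
      rw [← hb']
      apply Ideal.mem_map_of_mem
      rw [Ideal.mem_comap]
      change pr E ∈ q
      rw [hprE]
      exact q.zero_mem
    have hEne : E ≠ X none * X (some none) - C π := by
      intro h
      have h1 : th R _ E = 0 := by
        rw [h, map_sub, map_mul, th_none, zero_mul, th_C]
        have hres : IsLocalRing.residue R π = 0 := by
          rw [IsLocalRing.residue_eq_zero_iff, hπ.maximalIdeal_eq]
          exact Ideal.mem_span_singleton_self π
        rw [hres, C_0, sub_zero]
      rw [hb'] at h1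
      have h2 : qd j₁ b' (fun s r => IsLocalRing.residue R (coeff 0 (H s r))) ∈
          (⊥ : Ideal (MvPolynomial (Option {j : Fin N // j ≠ j₁}) (IsLocalRing.ResidueField R))) := by
        rw [h1]
        exact Ideal.zero_mem _
      have hbot : (⊥ : Ideal (MvPolynomial (Option {j : Fin N // j ≠ j₁})
        (IsLocalRing.ResidueField R))).IsPrime := Ideal.isPrime_bot
      obtain ⟨j, hj⟩ := qd_smooth j₁ b' _ hdet ⊥ h2
      apply hj
      rw [h1, map_zero]
      exact Ideal.zero_mem _
    have hkerle : RingHom.ker (th R (Option {j : Fin N // j ≠ j₁})) ≤ q.comap (pr : W →+* A) := by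
      intro x hx
      have h1 := ker_th π hπ hx
      have h2 : Ideal.span {X none, C π} ≤ q.comap (pr : W →+* A) := by
        rw [Ideal.span_le]
        rintro y (rfl | rfl)
        · exact hnone
        · rw [SetLike.mem_coe, Ideal.mem_comap]
          change pr (C π) ∈ q
          have h3 : pr (C π) = pr (X none) * pr (X (some none)) := by
            rw [← map_mul, ← sub_eq_zero, ← map_sub, hpr0, ← neg_sub, Ideal.neg_mem_iff]
            exact Ideal.subset_span (by simp)
          rw [h3]
          exact q.mul_mem_right _ hnone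
      exact h2 h1
    have hprm : ((q.comap (pr : W →+* A)).map (th R (Option {j : Fin N // j ≠ j₁}))).IsPrime :=
      Ideal.map_isPrime_of_surjective th_surj hkerle
    obtain ⟨j, hj⟩ := qd_smooth j₁ b' _ hdet _ hqdm
    refine crit_two π hπ none E hEne (pr : W →+* A) hpr hprk q hnone ?_
    intro c hc
    rw [hb']
    exact not_sq _ _ hqdm j hj c hc
  · have h1 := ident π b k l hkl a H (pr (zv R j₁ sw)) (pr (wv R j₁ sw)) (fun i => pr (tw j₁ i)) hzwA
    have h2 : pr (aeval y (nodeEq π b k a H)) =
        aeval (fun i => algebraMap R A (π ^ l) * pr (zv R j₁ sw) * pr (tw j₁ i))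
          (nodeEq π b k a H) := by
      rw [← AlgHom.comp_apply]
      congr 1
      apply MvPolynomial.algHom_ext
      intro i
      rw [AlgHom.comp_apply, aeval_X, aeval_X]
      simp only [y, map_mul]
      rw [← hal, AlgHom.commutes]
    have h3 : EV π b k l a H (pr (zv R j₁ sw)) (pr (wv R j₁ sw)) (fun i => pr (tw j₁ i)) = pr E := by
      rw [hE, Ew, EV_map]
    rw [h2, h1, h3, hprE, mul_zero]
  · convert hj₀ using 2 with j
    exact hey _

end two

end Pool.Agent.V8H73.ND
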